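import Mathlib

/-!
PROJECT MM, block B2 (Mehler semigroup): definitions and statements.
`E` is any finite-dimensional real inner product space, `Q : E ≃L[ℝ] E`.
-/

namespace MMB2
open MeasureTheory Real

section defs
variable {E : Type*} [NormedAddCommGroup E] [InnerProductSpace ℝ E]

/-- directional derivative of `u` in direction `a` -/
noncomputable def d1 (a : E) (u : E → ℝ) (x : E) : ℝ := fderiv ℝ u x a

/-- second directional derivative -/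
noncomputable def d2 (a b : E) (u : E → ℝ) : E → ℝ := d1 b (d1 a u)

/-- Hoelder-1/2 bound with constant `H` -/
def Hol (H : ℝ) (F : E → ℝ) : Prop := ∀ x y : E, |F x - F y| ≤ H * Real.sqrt ‖x - y‖

/-- `s_t = sqrt (1 - e^{-2t})` -/
noncomputable def sg (t : ℝ) : ℝ := Real.sqrt (1 - Real.exp (-2 * t))

variable [FiniteDimensional ℝ E] [MeasurableSpace E] [BorelSpace E]

/-- the standard Gaussian density with respect to `volume` -/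
noncomputable def gk (z : E) : ℝ :=
  Real.exp (-‖z‖ ^ 2 / 2) / ∫ w : E, Real.exp (-‖w‖ ^ 2 / 2)

/-- Mehler semigroup `M_t f (x) = E f (e^{-t} x + s_t Q Z)` -/
noncomputable def Mt (Q : E ≃L[ℝ] E) (t : ℝ) (f : E → ℝ) (x : E) : ℝ :=
  ∫ z : E, f (Real.exp (-t) • x + sg t • Q z) * gk z

/-- `A_Q u = - tr (Q Qᵀ D²u) + x.grad u` -/
noncomputable def AQ (Q : E ≃L[ℝ] E) (u : E → ℝ) (x : E) : ℝ :=
  - (∑ i, d2 (Q (stdOrthonormalBasis ℝ E i)) (Q (stdOrthonormalBasis ℝ E i)) u x) + d1 x u x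

end defs

/-- CORE: a priori estimate, `u` only C² with bounded second derivatives. -/
def ST_CORE : Prop :=
  ∀ (E : Type) [NormedAddCommGroup E] [InnerProductSpace ℝ E] [FiniteDimensional ℝ E]
    [MeasurableSpace E] [BorelSpace E] (R : ℝ),
  ∃ C : ℝ, 0 ≤ C ∧ ∀ (Q : E ≃L[ℝ] E), ‖(Q : E →L[ℝ] E)‖ ≤ R → ‖(Q.symm : E →L[ℝ] E)‖ ≤ R →
  ∀ κ : ℝ, -1 ≤ κ → ∀ (u : E → ℝ) (K H : ℝ), ContDiff ℝ 2 u →
    (∀ x a b, |d2 a b u x| ≤ K * ‖a‖ * ‖b‖) →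
    Hol H (fun x => AQ Q u x + κ * u x) →
    (∀ x a b, |d2 a b u x| ≤ C * H * ‖a‖ * ‖b‖) ∧
    (∀ a b, Hol (C * H * ‖a‖ * ‖b‖) (d2 a b u))

/-- EX: solvability of `(A_Q - 1) u = F` for even `F` in `C^{3,1/2}_b`. -/
def ST_EX : Prop :=
  ∀ (E : Type) [NormedAddCommGroup E] [InnerProductSpace ℝ E] [FiniteDimensional ℝ E]
    [MeasurableSpace E] [BorelSpace E] (Q : E ≃L[ℝ] E) (F : E → ℝ) (K H : ℝ),
    ContDiff ℝ 3 F → (∀ x, F (-x) = F x) →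
    (∀ x, |F x| ≤ K) → (∀ x a, |d1 a F x| ≤ K * ‖a‖) →
    (∀ x a b, |d2 a b F x| ≤ K * ‖a‖ * ‖b‖) →
    (∀ x a b c, |d1 c (d2 a b F) x| ≤ K * ‖a‖ * ‖b‖ * ‖c‖) →
    (∀ a b c, Hol (H * ‖a‖ * ‖b‖ * ‖c‖) (d1 c (d2 a b F))) →
    ∃ (u : E → ℝ) (K' H' : ℝ), ContDiff ℝ 5 u ∧ (∀ x, u (-x) = u x) ∧
      (∀ x, AQ Q u x - u x = F x) ∧
      (∀ x a b, |d2 a b u x| ≤ K' * ‖a‖ * ‖b‖) ∧
      (∀ x a b c, |d1 c (d2 a b u) x| ≤ K' * ‖a‖ * ‖b‖ * ‖c‖) ∧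
      (∀ x a b c d, |d2 c d (d2 a b u) x| ≤ K' * ‖a‖ * ‖b‖ * ‖c‖ * ‖d‖) ∧
      (∀ x a b c d e, |d2 d e (d1 c (d2 a b u)) x| ≤ K' * ‖a‖ * ‖b‖ * ‖c‖ * ‖d‖ * ‖e‖) ∧
      (∀ a b c d e, Hol (H' * ‖a‖ * ‖b‖ * ‖c‖ * ‖d‖ * ‖e‖) (d2 d e (d1 c (d2 a b u))))

/-- EXT: as `ST_EX`, but for data only in `C^{1/2}_b` (solution `u` in `C²`, `D²u` in `C^{1/2}_b`). -/
def ST_EX0 : Prop :=
  ∀ (E : Type) [NormedAddCommGroup E] [InnerProductSpace ℝ E] [FiniteDimensional ℝ E]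
    [MeasurableSpace E] [BorelSpace E] (Q : E ≃L[ℝ] E) (F : E → ℝ) (K H : ℝ),
    (∀ x, F (-x) = F x) → (∀ x, |F x| ≤ K) → Hol H F →
    ∃ (u : E → ℝ) (K' : ℝ), ContDiff ℝ 2 u ∧ (∀ x, u (-x) = u x) ∧
      (∀ x, AQ Q u x - u x = F x) ∧
      (∀ x a b, |d2 a b u x| ≤ K' * ‖a‖ * ‖b‖)

end MMB2
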