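import Pool.Agent.Helper32.MM.TimeB2

set_option linter.unusedSectionVars false

namespace MMB2
open MeasureTheory Real Set

variable {E : Type*} [NormedAddCommGroup E] [InnerProductSpace ℝ E] [FiniteDimensional ℝ E]
  [MeasurableSpace E] [BorelSpace E]

theorem d1_mul_left (g : E → ℝ) (c : ℝ) (y v : E) (hg : DifferentiableAt ℝ g y) :
    d1 v (fun y => c * g y) y = c * d1 v g y := by
  unfold d1
  rw [fderiv_const_mul hg]
  rfl

theorem d1_sub (f g : E → ℝ) (y v : E) (hf : DifferentiableAt ℝ f y) (hg : DifferentiableAt ℝ g y) :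
    d1 v (fun y => f y - g y) y = d1 v f y - d1 v g y := by
  unfold d1
  rw [fderiv_fun_sub hf hg]
  rfl

/-- directional differentiation under the time integral -/
theorem d1_setIntegral {S : Set ℝ} (hS : MeasurableSet S) {f : ℝ → E → ℝ} {V : E → ℝ} {β : ℝ → ℝ}
    {x b : E} (hV : DifferentiableAt ℝ V x)
    (hVf : ∀ y, V y = ∫ t in S, f t y)
    (hmeas : ∀ y, AEStronglyMeasurable (fun t => f t y) (volume.restrict S))
    (hint : IntegrableOn (fun t => f t x) S)
    (hmeas' : AEStronglyMeasurable (fun t => d1 b (f t) x) (volume.restrict S))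
    (hdiff : ∀ t ∈ S, Differentiable ℝ (f t))
    (hb : ∀ t ∈ S, ∀ y, |d1 b (f t) y| ≤ β t) (hβ : IntegrableOn β S) :
    d1 b V x = ∫ t in S, d1 b (f t) x := by
  -- along the line
  have hline : ∀ (g : E → ℝ) (r : ℝ), DifferentiableAt ℝ g (x + r • b) →
      HasDerivAt (fun r : ℝ => g (x + r • b)) (d1 b g (x + r • b)) r := by
    intro g r hg
    have h1 : HasDerivAt (fun r : ℝ => x + r • b) b r := by
      have := ((hasDerivAt_id r).smul_const b).const_add x
      simpa using this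
    exact hg.hasFDerivAt.comp_hasDerivAt r h1
  have h1 : HasDerivAt (fun r : ℝ => V (x + r • b)) (d1 b V x) 0 := by
    have := hline V 0 (by simpa using hV)
    simpa using this
  have key := hasDerivAt_integral_of_dominated_loc_of_deriv_le (μ := volume.restrict S)
    (F := fun (r : ℝ) (t : ℝ) => f t (x + r • b)) (F' := fun r t => d1 b (f t) (x + r • b))
    (x₀ := (0:ℝ)) (s := Metric.ball (0:ℝ) 1) (bound := β) (Metric.ball_mem_nhds 0 one_pos)
    (Filter.Eventually.of_forall fun r => hmeas _) (by simp only [zero_smul, add_zero]; exact hint) (by simpa using hmeas')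
    (by
      rw [ae_restrict_iff' hS]
      filter_upwards with t ht r _
      exact hb t ht _) hβ (by
      rw [ae_restrict_iff' hS]
      filter_upwards with t ht r _
      exact hline (f t) r (hdiff t ht _))
  have h2 := key.2
  have h3 : (fun r : ℝ => V (x + r • b)) = fun r : ℝ => ∫ t in S, f t (x + r • b) := by
    funext r; exact hVf _
  rw [h3] at h1
  have h4 := h1.unique h2
  simpa using h4

/-- `M_t` commutes with the second derivative -/
theorem d2_Mt_smooth (Q : E ≃L[ℝ] E) (t : ℝ) {u : E → ℝ} {K : ℝ}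
    (hu : ContDiff ℝ 2 u) (hK : ∀ x a b, |d2 a b u x| ≤ K * ‖a‖ * ‖b‖) (a b x : E) :
    d2 a b (Mt Q t u) x = Real.exp (-2 * t) * Mt Q t (d2 a b u) x := by
  have hdu := pg_fderiv_of_d2 hu hK
  have hup := pg_of_d2 hu hK
  have hu1 : ContDiff ℝ 1 u := hu.of_le (by norm_num)
  have h1 : d1 a (Mt Q t u) = fun x => Real.exp (-t) * Mt Q t (d1 a u) x := by
    funext y; exact d1_Mt_smooth Q t hu1 hup hdu y a
  have hd1 : ContDiff ℝ 1 (d1 a u) := contDiff_d1 (n := 1) (by exact_mod_cast hu) a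
  have hd1p : PG (d1 a u) := by
    refine (hdu.mul (PG.const ‖a‖)).mono fun y => ?_
    rw [abs_mul, abs_of_nonneg (norm_nonneg _), abs_of_nonneg (norm_nonneg _)]
    exact (fderiv ℝ u y).le_opNorm a
  have hd1d : PG fun z => ‖fderiv ℝ (d1 a u) z‖ := by
    refine (PG.const (E := E) (|K| * ‖a‖)).mono fun y => ?_
    rw [abs_of_nonneg (norm_nonneg _), abs_of_nonneg (by positivity)]
    refine ContinuousLinearMap.opNorm_le_bound _ (by positivity) fun b => ?_
    calc ‖fderiv ℝ (d1 a u) y b‖ = |d2 a b u y| := rfl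
      _ ≤ K * ‖a‖ * ‖b‖ := hK y a b
      _ ≤ _ := by gcongr; exact le_abs_self K
  unfold d2
  rw [h1]
  have h2 : d1 b (fun x => Real.exp (-t) * Mt Q t (d1 a u) x) x =
      Real.exp (-t) * d1 b (Mt Q t (d1 a u)) x :=
    d1_mul_left _ _ _ _ (hasFDerivAt_Mt_smooth Q t hd1 hd1p hd1d x).differentiableAt
  rw [h2, d1_Mt_smooth Q t hd1 hd1p hd1d x b, ← mul_assoc, ← Real.exp_add]
  congr 2
  ring

theorem Mt_linear (Q : E ≃L[ℝ] E) (t : ℝ) {f g : E → ℝ} (hf : Continuous f) (hfp : PG f)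
    (hg : Continuous g) (hgp : PG g) (c : ℝ) (x : E) :
    Mt Q t (fun y => f y + c * g y) x = Mt Q t f x + c * Mt Q t g x := by
  have haff : Continuous fun z : E => Real.exp (-t) • x + sg t • Q z := by fun_prop
  unfold Mt
  rw [← integral_const_mul, ← integral_add]
  · refine integral_congr_ae ?_
    filter_upwards with z
    ring
  · exact PG.integrable_mul_gk (hf.comp haff) (hfp.comp_affine _ _ (Q : E →L[ℝ] E))
  · exact (PG.integrable_mul_gk (hg.comp haff) (hgp.comp_affine _ _ (Q : E →L[ℝ] E))).const_mul _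

theorem continuous_AQ (Q : E ≃L[ℝ] E) {u : E → ℝ} (hu : ContDiff ℝ 2 u) : Continuous (AQ Q u) := by
  have hd1 : ∀ a : E, ContDiff ℝ 1 (d1 a u) := fun a => contDiff_d1 (n := 1) (by exact_mod_cast hu) a
  have hd2c : ∀ a b : E, Continuous (d2 a b u) := fun a b =>
    (contDiff_d1 (n := 0) (by exact_mod_cast hd1 a) b).continuous
  have hdfc : Continuous (fderiv ℝ u) := hu.continuous_fderiv (by norm_num)
  unfold AQ
  refine Continuous.add (continuous_finsetSum _ fun i _ => hd2c _ _).neg ?_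
  unfold d1
  exact hdfc.clm_apply continuous_id

theorem pg_AQ (Q : E ≃L[ℝ] E) {u : E → ℝ} {K : ℝ} (hu : ContDiff ℝ 2 u)
    (hK : ∀ x a b, |d2 a b u x| ≤ K * ‖a‖ * ‖b‖) : PG (AQ Q u) := by
  have hdu := pg_fderiv_of_d2 hu hK
  unfold AQ
  refine PG.add (PG.neg ?_) ?_
  · refine (PG.const (∑ i, K * ‖Q (stdOrthonormalBasis ℝ E i)‖ * ‖Q (stdOrthonormalBasis ℝ E i)‖)).mono
      fun y => ?_
    refine (Finset.abs_sum_le_sum_abs _ _).trans ((Finset.sum_le_sum fun i _ => hK y _ _).trans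
      (le_abs_self _))
  · refine (hdu.mul PG.norm).mono fun y => ?_
    rw [abs_mul, abs_of_nonneg (norm_nonneg _), abs_of_nonneg (norm_nonneg _)]
    exact (fderiv ℝ u y).le_opNorm y

/-- the integrated equation -/
theorem duhamel (Q : E ≃L[ℝ] E) {u : E → ℝ} {K κ : ℝ} (hu : ContDiff ℝ 2 u)
    (hK : ∀ x a b, |d2 a b u x| ≤ K * ‖a‖ * ‖b‖) {T : ℝ} (hT : 0 ≤ T) (x : E) :
    u x - Real.exp (-κ * T) * Mt Q T u x =
      ∫ t in Ioc 0 T, Real.exp (-κ * t) * Mt Q t (fun y => AQ Q u y + κ * u y) x := by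
  have hup := pg_of_d2 hu hK
  have hAc := continuous_AQ Q hu
  have hAp := pg_AQ Q hu hK
  have hFc : Continuous fun y => AQ Q u y + κ * u y := hAc.add (continuous_const.mul hu.continuous)
  have hFp : PG fun y => AQ Q u y + κ * u y := hAp.add ((PG.const κ).mul hup)
  have hcont : ContinuousOn (fun t => -(Real.exp (-κ * t) * Mt Q t u x)) (Icc 0 T) :=
    (ContinuousOn.mul (by fun_prop)
      ((continuousOn_Mt Q hu.continuous hup x).mono fun t ht => ht.1)).neg
  have hderiv : ∀ t ∈ Ioo 0 T, HasDerivAt (fun t => -(Real.exp (-κ * t) * Mt Q t u x))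
      (Real.exp (-κ * t) * Mt Q t (fun y => AQ Q u y + κ * u y) x) t := by
    intro t ht
    have h1 : HasDerivAt (fun t : ℝ => Real.exp (-κ * t)) (-κ * Real.exp (-κ * t)) t := by
      have := ((hasDerivAt_id t).const_mul (-κ)).exp
      refine this.congr_deriv ?_
      simp; ring
    have h2 := (h1.mul (hasDerivAt_Mt Q ht.1 hu hK x)).neg
    refine h2.congr_deriv ?_
    rw [Mt_linear Q t hAc hAp hu.continuous hup]
    ring
  have hint : IntervalIntegrable (fun t => Real.exp (-κ * t) *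
      Mt Q t (fun y => AQ Q u y + κ * u y) x) volume 0 T := by
    refine ContinuousOn.intervalIntegrable ?_
    rw [uIcc_of_le hT]
    exact ContinuousOn.mul (by fun_prop) ((continuousOn_Mt Q hFc hFp x).mono fun t ht => ht.1)
  have h := intervalIntegral.integral_eq_sub_of_hasDerivAt_of_le hT hcont hderiv hint
  rw [intervalIntegral.integral_of_le hT] at h
  rw [h, Mt_zero]
  simp
  ring

theorem row_CORE_aux (Q : E ≃L[ℝ] E) {R : ℝ} (hQ : ‖(Q : E →L[ℝ] E)‖ ≤ R)
    (hQ' : ‖(Q.symm : E →L[ℝ] E)‖ ≤ R) {κ : ℝ} (hκ : -1 ≤ κ) {u : E → ℝ} {K H : ℝ}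
    (hu : ContDiff ℝ 2 u) (hK : ∀ x a b, |d2 a b u x| ≤ K * ‖a‖ * ‖b‖)
    (hF : Hol H (fun x => AQ Q u x + κ * u x)) {T : ℝ} (hT : 0 < T) (a b x : E) :
    d2 a b u x - Real.exp (-(κ + 2) * T) * Mt Q T (d2 a b u) x =
      ∫ t in Ioc 0 T, Real.exp (-κ * t) *
        d2 a b (Mt Q t (fun x => AQ Q u x + κ * u x)) x := by
  set F : E → ℝ := fun x => AQ Q u x + κ * u x with hFdef
  have hFc := hF.continuous'
  have hFp := hF.pg
  have hup := pg_of_d2 hu hK
  have hdu := pg_fderiv_of_d2 hu hK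
  have hu1 : ContDiff ℝ 1 u := hu.of_le (by norm_num)
  have hR : 0 ≤ R := (norm_nonneg _).trans hQ
  let V : E → ℝ := fun y => u y - Real.exp (-κ * T) * Mt Q T u y
  have hV2 : ContDiff ℝ 2 V := hu.sub (contDiff_const.mul (contDiff_Mt Q hT hu.continuous hup))
  -- measurability in time
  have hm : ∀ (p : E → ℝ), Continuous p → PG p → ∀ y, ContinuousOn (fun t => Ip Q t p F y) (Ioc 0 T) :=
    fun p hp hpp y => (continuousOn_Ip Q hFc hFp hp hpp y).mono fun t ht => ht.1.le
  have hsgc : ContinuousOn (fun t => Real.exp (-t) / sg t) (Ioc 0 T) := by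
    have hs := continuous_sg
    exact ContinuousOn.div (by fun_prop) hs.continuousOn fun t ht => (sg_pos ht.1).ne'
  have hexp : ContinuousOn (fun t => Real.exp (-κ * t)) (Ioc 0 T) := by fun_prop
  -- first derivative
  have h0 : ∀ y, V y = ∫ t in Ioc 0 T, Real.exp (-κ * t) * Mt Q t F y :=
    fun y => duhamel Q hu hK hT.le y
  have hwint : IntegrableOn (w2 κ) (Ioc 0 T) := (integrableOn_w2 hκ).mono_set fun t ht => ht.1
  have hd1c : ∀ y, ContinuousOn (fun t => Real.exp (-κ * t) * d1 a (Mt Q t F) y) (Ioc 0 T) := by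
    intro y
    refine ContinuousOn.congr (f := fun t => Real.exp (-κ * t) *
      (Real.exp (-t) / sg t * Ip Q t (p1 (Q.symm a)) F y)) ?_ ?_
    · exact hexp.mul (hsgc.mul (hm _ (contDiff_p1 _).continuous (pg_p1 _) y))
    · intro t ht
      simp only
      rw [d1_Mt Q ht.1 hFc hFp]
  have hd2c : ∀ y, ContinuousOn (fun t => Real.exp (-κ * t) * d2 a b (Mt Q t F) y) (Ioc 0 T) := by
    intro y
    refine ContinuousOn.congr (f := fun t => Real.exp (-κ * t) *
      ((Real.exp (-t) / sg t) ^ 2 * Ip Q t (p2 (Q.symm a) (Q.symm b)) F y)) ?_ ?_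
    · exact hexp.mul ((hsgc.pow 2).mul (hm _ (contDiff_p2 _ _).continuous (pg_p2 _ _) y))
    · intro t ht
      simp only
      rw [d2_Mt Q ht.1 hFc hFp]
  -- bound of the first derivative by a multiple of `w2`
  let C1 : ℝ := |H| * (√R * R * mom E 2) * ‖a‖ * Real.exp T
  have hb1 : ∀ t ∈ Ioc 0 T, ∀ y, |Real.exp (-κ * t) * d1 a (Mt Q t F) y| ≤ C1 * w2 κ t := by
    intro t ht y
    have hs := sg_pos ht.1
    rw [abs_mul, abs_of_pos (Real.exp_pos _)]
    have h1 := abs_d1_Mt_le Q hQ hQ' ht.1 hF a y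
    have hm2 := mom_nonneg (E := E) 2
    have h2 : Real.exp (-t) / sg t ≤ Real.exp T * (Real.exp (-t) / sg t) ^ 2 := by
      have e1 : 1 ≤ Real.exp T * (Real.exp (-t) / sg t) := by
        rw [mul_div_assoc', ← Real.exp_add, one_le_div hs]
        calc sg t ≤ 1 := sg_le_one t
          _ ≤ Real.exp (T + -t) := Real.one_le_exp (by linarith [ht.2])
      have e2 : 0 ≤ Real.exp (-t) / sg t := by positivity
      nlinarith
    calc Real.exp (-κ * t) * |d1 a (Mt Q t F) y|
        ≤ Real.exp (-κ * t) * ((Real.exp (-t) / sg t) *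
          (H * √(sg t) * (√R * R * mom E 2)) * ‖a‖) := by gcongr
      _ ≤ Real.exp (-κ * t) * ((Real.exp T * (Real.exp (-t) / sg t) ^ 2) *
          (|H| * √(sg t) * (√R * R * mom E 2)) * ‖a‖) := by
          have h5 : H * √(sg t) * (√R * R * mom E 2) ≤ |H| * √(sg t) * (√R * R * mom E 2) := by
            gcongr; exact le_abs_self H
          have h6 : 0 ≤ Real.exp (-t) / sg t := by positivity
          have h7 : (Real.exp (-t) / sg t) * (H * √(sg t) * (√R * R * mom E 2)) ≤
              (Real.exp T * (Real.exp (-t) / sg t) ^ 2) * (|H| * √(sg t) * (√R * R * mom E 2)) :=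
            (mul_le_mul_of_nonneg_left h5 h6).trans (mul_le_mul_of_nonneg_right h2 (by positivity))
          gcongr
      _ = C1 * w2 κ t := by simp only [C1, w2]; ring
  have hdiff1 : ∀ t ∈ Ioc 0 T, Differentiable ℝ (fun y => Real.exp (-κ * t) * Mt Q t F y) :=
    fun t ht => (differentiable_Mt Q ht.1 hFc hFp).const_mul _
  have hd1mul : ∀ (g : E → ℝ) (c : ℝ) (y v : E), DifferentiableAt ℝ g y →
      d1 v (fun y => c * g y) y = c * d1 v g y := d1_mul_left
  have h1 : ∀ y, d1 a V y = ∫ t in Ioc 0 T, Real.exp (-κ * t) * d1 a (Mt Q t F) y := by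
    intro y
    have e : ∀ t ∈ Ioc 0 T, d1 a (fun y => Real.exp (-κ * t) * Mt Q t F y) y =
        Real.exp (-κ * t) * d1 a (Mt Q t F) y := fun t ht =>
      hd1mul _ _ _ _ (differentiable_Mt Q ht.1 hFc hFp y)
    have := d1_setIntegral (S := Ioc 0 T) measurableSet_Ioc
      (f := fun t y => Real.exp (-κ * t) * Mt Q t F y) (V := V) (β := fun t => C1 * w2 κ t)
      (x := y) (b := a) (hV2.differentiable (by norm_num) y) h0
      (fun y => (ContinuousOn.mul hexp ((continuousOn_Mt Q hFc hFp y).mono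
        fun t ht => ht.1.le)).aestronglyMeasurable measurableSet_Ioc)
      (by
        have : ContinuousOn (fun t => Real.exp (-κ * t) * Mt Q t F y) (Icc 0 T) :=
          ContinuousOn.mul (by fun_prop) ((continuousOn_Mt Q hFc hFp y).mono fun t ht => ht.1)
        exact this.integrableOn_Icc.mono_set Ioc_subset_Icc_self)
      (by
        have : ContinuousOn (fun t => d1 a (fun y => Real.exp (-κ * t) * Mt Q t F y) y) (Ioc 0 T) :=
          (hd1c y).congr fun t ht => e t ht
        exact this.aestronglyMeasurable measurableSet_Ioc)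
      hdiff1
      (fun t ht y => by
        have := hb1 t ht y
        rw [hd1mul _ _ _ _ (differentiable_Mt Q ht.1 hFc hFp y)]
        exact this)
      (hwint.const_mul _)
    rw [this]
    exact setIntegral_congr_fun measurableSet_Ioc fun t ht => e t ht
  -- second derivative
  let C2 : ℝ := |H| * (√R * R ^ 2 * mom E 3) * ‖a‖ * ‖b‖
  have hb2 : ∀ t ∈ Ioc 0 T, ∀ y, |Real.exp (-κ * t) * d2 a b (Mt Q t F) y| ≤ C2 * w2 κ t := by
    intro t ht y
    rw [abs_mul, abs_of_pos (Real.exp_pos _)]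
    have h1 := abs_d2_Mt_le Q hQ hQ' ht.1 hF a b y
    have hm2 := mom_nonneg (E := E) 3
    calc Real.exp (-κ * t) * |d2 a b (Mt Q t F) y|
        ≤ Real.exp (-κ * t) * ((Real.exp (-t) / sg t) ^ 2 *
          (H * √(sg t) * (√R * R ^ 2 * mom E 3)) * ‖a‖ * ‖b‖) := by gcongr
      _ ≤ Real.exp (-κ * t) * ((Real.exp (-t) / sg t) ^ 2 *
          (|H| * √(sg t) * (√R * R ^ 2 * mom E 3)) * ‖a‖ * ‖b‖) := by
          gcongr
          exact le_abs_self H
      _ = C2 * w2 κ t := by simp only [C2, w2]; ring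
  have hV1 : ContDiff ℝ 1 (d1 a V) := contDiff_d1 (n := 1) (by exact_mod_cast hV2) a
  have hdiffd1 : ∀ t ∈ Ioc 0 T, Differentiable ℝ (d1 a (Mt Q t F)) := fun t ht =>
    (contDiff_d1 (n := 1) (by exact_mod_cast contDiff_Mt Q ht.1 hFc hFp) a).differentiable
      (by norm_num)
  have h2 : d2 a b V x = ∫ t in Ioc 0 T, Real.exp (-κ * t) * d2 a b (Mt Q t F) x := by
    have e : ∀ t ∈ Ioc 0 T, ∀ y, d1 b (fun y => Real.exp (-κ * t) * d1 a (Mt Q t F) y) y =
        Real.exp (-κ * t) * d2 a b (Mt Q t F) y := fun t ht y =>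
      hd1mul _ _ _ _ (hdiffd1 t ht y)
    have := d1_setIntegral (S := Ioc 0 T) measurableSet_Ioc
      (f := fun t y => Real.exp (-κ * t) * d1 a (Mt Q t F) y) (V := d1 a V)
      (β := fun t => C2 * w2 κ t)
      (x := x) (b := b) (hV1.differentiable (by norm_num) x) h1
      (fun y => (hd1c y).aestronglyMeasurable measurableSet_Ioc)
      ((hwint.const_mul C1).mono' ((hd1c x).aestronglyMeasurable measurableSet_Ioc) (by
        rw [ae_restrict_iff' measurableSet_Ioc]
        filter_upwards with t ht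
        exact hb1 t ht x))
      (by
        have : ContinuousOn (fun t => d1 b (fun y => Real.exp (-κ * t) * d1 a (Mt Q t F) y) x)
            (Ioc 0 T) := (hd2c x).congr fun t ht => e t ht x
        exact this.aestronglyMeasurable measurableSet_Ioc)
      (fun t ht => (hdiffd1 t ht).const_mul _)
      (fun t ht y => by
        rw [e t ht y]
        exact hb2 t ht y)
      (hwint.const_mul _)
    change d1 b (d1 a V) x = _
    rw [this]
    exact setIntegral_congr_fun measurableSet_Ioc fun t ht => e t ht x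
  rw [← h2]
  -- compute `d2 a b V`
  have hMT := contDiff_Mt Q hT hu.continuous hup
  have e1 : d1 a V = fun y => d1 a u y - Real.exp (-κ * T) * d1 a (Mt Q T u) y := by
    funext y
    have hu' := hu.differentiable (by norm_num) y
    have hM' := hMT.differentiable (by norm_num) y
    simp only [V]
    rw [d1_sub _ _ _ _ hu' (hM'.const_mul _), d1_mul_left _ _ _ _ hM']
  have hd1u : ContDiff ℝ 1 (d1 a u) := contDiff_d1 (n := 1) (by exact_mod_cast hu) a
  have hd1M : ContDiff ℝ 1 (d1 a (Mt Q T u)) := contDiff_d1 (n := 1) (by exact_mod_cast hMT) a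
  have e2 : d2 a b V x = d2 a b u x - Real.exp (-κ * T) * d2 a b (Mt Q T u) x := by
    have hu' := hd1u.differentiable (by norm_num) x
    have hM' := hd1M.differentiable (by norm_num) x
    unfold d2
    rw [e1, d1_sub _ _ _ _ hu' (hM'.const_mul _), d1_mul_left _ _ _ _ hM']
  rw [e2, d2_Mt_smooth Q T hu hK, ← mul_assoc, ← Real.exp_add]
  congr 3
  ring

theorem row_CORE' (R : ℝ) : ∃ C : ℝ, 0 ≤ C ∧ ∀ (Q : E ≃L[ℝ] E), ‖(Q : E →L[ℝ] E)‖ ≤ R →
    ‖(Q.symm : E →L[ℝ] E)‖ ≤ R →
    ∀ κ : ℝ, -1 ≤ κ → ∀ (u : E → ℝ) (K H : ℝ), ContDiff ℝ 2 u →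
    (∀ x a b, |d2 a b u x| ≤ K * ‖a‖ * ‖b‖) →
    Hol H (fun x => AQ Q u x + κ * u x) →
    (∀ x a b, |d2 a b u x| ≤ C * H * ‖a‖ * ‖b‖) ∧
    (∀ a b, Hol (C * H * ‖a‖ * ‖b‖) (d2 a b u)) := by
  rcases lt_or_ge R 0 with hR | hR
  · refine ⟨0, le_rfl, fun Q hQ => absurd ((norm_nonneg _).trans hQ) (not_le.mpr hR)⟩
  have hm3 := mom_nonneg (E := E) 3
  have hm4 := mom_nonneg (E := E) 4
  have hB := Bw_nonneg
  set A2 := √R * R ^ 2 * mom E 3 with hA2
  set A3 := √R * R ^ 3 * mom E 4 with hA3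
  have hA20 : 0 ≤ A2 := by positivity
  have hA30 : 0 ≤ A3 := by positivity
  refine ⟨A2 * Bw + (A2 + A3) * 12, by positivity, ?_⟩
  intro Q hQ hQ' κ hκ u K H hu hK hF
  -- trivial space
  by_cases hE : ∃ e : E, e ≠ 0
  swap
  · push Not at hE
    constructor
    · intro x a b
      rw [hE a, hE b]
      simp [d2, d1]
    · intro a b x y
      rw [hE x, hE y]
      simp
  obtain ⟨e, he⟩ := hE
  have hH : 0 ≤ H := hF.nonneg_of e he
  have hK0 : 0 ≤ K := by
    have := (abs_nonneg _).trans (hK 0 e e)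
    have hn : 0 < ‖e‖ := norm_pos_iff.mpr he
    by_contra hcon
    push Not at hcon
    nlinarith [mul_pos hn hn]
  set F : E → ℝ := fun x => AQ Q u x + κ * u x with hFdef
  have hFc := hF.continuous'
  have hFp := hF.pg
  have hd1 : ∀ a : E, ContDiff ℝ 1 (d1 a u) := fun a => contDiff_d1 (n := 1) (by exact_mod_cast hu) a
  have hd2c : ∀ a b : E, Continuous (d2 a b u) := fun a b =>
    (contDiff_d1 (n := 0) (by exact_mod_cast hd1 a) b).continuous
  have hrep := fun (T : ℝ) (hT : 0 < T) (a b x : E) => row_CORE_aux Q hQ hQ' hκ hu hK hF hT a b x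
  -- the boundary term
  have hbd : ∀ T, 0 < T → ∀ a b x, |Real.exp (-(κ + 2) * T) * Mt Q T (d2 a b u) x| ≤
      Real.exp (-T) * (K * ‖a‖ * ‖b‖) := by
    intro T hT a b x
    rw [abs_mul, abs_of_pos (Real.exp_pos _), Mt_eq_Ip]
    have h1 := abs_Ip_le (E := E) Q T (p := fun _ => 1) (G := d2 a b u) (K := K * ‖a‖ * ‖b‖)
      (c := 1) (m := 0) (fun x => hK x a b) (fun z => by simp) x
    have h2 : mom E 0 = 1 := by unfold mom; simp [integral_gk]
    rw [h2, mul_one, mul_one] at h1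
    have h3 : Real.exp (-(κ + 2) * T) ≤ Real.exp (-T) := Real.exp_le_exp.mpr (by nlinarith)
    gcongr
  have hlim : ∀ c : ℝ, Filter.Tendsto (fun T : ℝ => Real.exp (-T) * c) Filter.atTop (nhds 0) := by
    intro c
    have := (Real.tendsto_exp_neg_atTop_nhds_zero).mul_const c
    simpa using this
  -- bounds of the integrand
  have hb2 : ∀ t, 0 < t → ∀ a b y, |Real.exp (-κ * t) * d2 a b (Mt Q t F) y| ≤
      (H * A2 * ‖a‖ * ‖b‖) * w2 κ t := by
    intro t ht a b y
    rw [abs_mul, abs_of_pos (Real.exp_pos _)]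
    have h1 := abs_d2_Mt_le Q hQ hQ' ht hF a b y
    calc Real.exp (-κ * t) * |d2 a b (Mt Q t F) y|
        ≤ Real.exp (-κ * t) * ((Real.exp (-t) / sg t) ^ 2 *
          (H * √(sg t) * A2) * ‖a‖ * ‖b‖) := by gcongr
      _ = _ := by simp only [w2]; ring
  have hb3 : ∀ t, 0 < t → ∀ a b x y, |Real.exp (-κ * t) * d2 a b (Mt Q t F) x -
      Real.exp (-κ * t) * d2 a b (Mt Q t F) y| ≤
      (H * A3 * ‖a‖ * ‖b‖) * (‖x - y‖ * w3 κ t) := by
    intro t ht a b x y
    rw [← mul_sub, abs_mul, abs_of_pos (Real.exp_pos _)]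
    have hs := sg_pos ht
    have hlip : ‖d2 a b (Mt Q t F) x - d2 a b (Mt Q t F) y‖ ≤
        ((Real.exp (-t) / sg t) ^ 3 * (H * √(sg t) * A3) * ‖a‖ * ‖b‖) * ‖x - y‖ := by
      refine Convex.norm_image_sub_le_of_norm_fderiv_le (𝕜 := ℝ) (s := Set.univ)
        (fun z _ => differentiable_d2_Mt Q ht hFc hFp a b z) (fun z _ => ?_) convex_univ
        (Set.mem_univ _) (Set.mem_univ _)
      refine ContinuousLinearMap.opNorm_le_bound _ (by positivity) fun c => ?_
      exact abs_d3_Mt_le Q hQ hQ' ht hF a b c z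
    rw [Real.norm_eq_abs] at hlip
    calc Real.exp (-κ * t) * |d2 a b (Mt Q t F) x - d2 a b (Mt Q t F) y|
        ≤ Real.exp (-κ * t) * (((Real.exp (-t) / sg t) ^ 3 * (H * √(sg t) * A3) * ‖a‖ * ‖b‖)
          * ‖x - y‖) := by gcongr
      _ = _ := by simp only [w3]; ring
  have hwint : ∀ T, IntegrableOn (w2 κ) (Ioc 0 T) := fun T =>
    (integrableOn_w2 hκ).mono_set fun t ht => ht.1
  have hsgc : ∀ T, ContinuousOn (fun t => Real.exp (-t) / sg t) (Ioc 0 T) := by
    intro T
    have hs := continuous_sg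
    exact ContinuousOn.div (by fun_prop) hs.continuousOn fun t ht => (sg_pos ht.1).ne'
  have hd2cont : ∀ T a b y, ContinuousOn (fun t => Real.exp (-κ * t) * d2 a b (Mt Q t F) y)
      (Ioc 0 T) := by
    intro T a b y
    refine ContinuousOn.congr (f := fun t => Real.exp (-κ * t) *
      ((Real.exp (-t) / sg t) ^ 2 * Ip Q t (p2 (Q.symm a) (Q.symm b)) F y)) ?_ ?_
    · exact ContinuousOn.mul (by fun_prop) (((hsgc T).pow 2).mul
        ((continuousOn_Ip Q hFc hFp (contDiff_p2 _ _).continuous (pg_p2 _ _) y).mono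
          fun t ht => ht.1.le))
    · intro t ht
      simp only
      rw [d2_Mt Q ht.1 hFc hFp]
  have hd2int : ∀ T a b y, IntegrableOn (fun t => Real.exp (-κ * t) * d2 a b (Mt Q t F) y)
      (Ioc 0 T) := by
    intro T a b y
    refine ((hwint T).const_mul (H * A2 * ‖a‖ * ‖b‖)).mono'
      ((hd2cont T a b y).aestronglyMeasurable measurableSet_Ioc) ?_
    rw [ae_restrict_iff' measurableSet_Ioc]
    filter_upwards with t ht
    exact hb2 t ht.1 a b y
  constructor
  · intro x a b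
    have h1 : ∀ T, 0 < T → |d2 a b u x| ≤
        Real.exp (-T) * (K * ‖a‖ * ‖b‖) + (H * A2 * ‖a‖ * ‖b‖) * Bw := by
      intro T hT
      have h2 : |∫ t in Ioc 0 T, Real.exp (-κ * t) * d2 a b (Mt Q t F) x| ≤
          (H * A2 * ‖a‖ * ‖b‖) * Bw := by
        calc _ ≤ ∫ t in Ioc 0 T, (H * A2 * ‖a‖ * ‖b‖) * w2 κ t := by
              rw [← Real.norm_eq_abs]
              refine norm_integral_le_of_norm_le ((hwint T).const_mul _) ?_
              rw [ae_restrict_iff' measurableSet_Ioc]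
              filter_upwards with t ht
              exact hb2 t ht.1 a b x
          _ = (H * A2 * ‖a‖ * ‖b‖) * ∫ t in Ioc 0 T, w2 κ t := by rw [integral_const_mul]
          _ ≤ _ := by
              gcongr
              exact integral_w2_le hκ T
      have h3 := hrep T hT a b x
      have h4 := hbd T hT a b x
      calc |d2 a b u x| = |Real.exp (-(κ + 2) * T) * Mt Q T (d2 a b u) x +
            ∫ t in Ioc 0 T, Real.exp (-κ * t) * d2 a b (Mt Q t F) x| := by
              congr 1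
              linarith
        _ ≤ _ := (abs_add_le _ _).trans (add_le_add h4 h2)
    have h5 : |d2 a b u x| ≤ 0 + (H * A2 * ‖a‖ * ‖b‖) * Bw :=
      ge_of_tendsto ((hlim (K * ‖a‖ * ‖b‖)).add_const _)
        (Filter.eventually_atTop.mpr ⟨1, fun T hT => h1 T (by linarith)⟩)
    refine h5.trans ?_
    have : 0 ≤ (A2 + A3) * 12 * H * ‖a‖ * ‖b‖ := by positivity
    nlinarith
  · intro a b x y
    rcases eq_or_ne x y with rfl | hxy
    · simp
    have hd : 0 < ‖x - y‖ := norm_pos_iff.mpr (sub_ne_zero.mpr hxy)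
    have h1 : ∀ T, 0 < T → |d2 a b u x - d2 a b u y| ≤
        Real.exp (-T) * (2 * (K * ‖a‖ * ‖b‖)) + (H * (A2 + A3) * ‖a‖ * ‖b‖) * 12 * √‖x - y‖ := by
      intro T hT
      have h2 := split_le (T := T) hκ hd (A := H * (A2 + A3) * ‖a‖ * ‖b‖) (by positivity)
        (f := fun t => Real.exp (-κ * t) * d2 a b (Mt Q t F) x -
          Real.exp (-κ * t) * d2 a b (Mt Q t F) y) (fun t ht => by
          have e1 := hb2 t ht a b x
          have e2 := hb2 t ht a b y
          have e3 : 0 ≤ (H * A3 * ‖a‖ * ‖b‖) * w2 κ t := mul_nonneg (by positivity) (w2_nonneg _ _)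
          calc _ ≤ |Real.exp (-κ * t) * d2 a b (Mt Q t F) x| +
                |Real.exp (-κ * t) * d2 a b (Mt Q t F) y| := abs_sub _ _
            _ ≤ _ := by nlinarith) (fun t ht => by
          have e1 := hb3 t ht a b x y
          have e3 : 0 ≤ (H * A2 * ‖a‖ * ‖b‖) * (‖x - y‖ * w3 κ t) :=
            mul_nonneg (by positivity) (mul_nonneg (norm_nonneg _) w3_nonneg)
          refine e1.trans ?_
          nlinarith)
      rw [integral_sub (hd2int T a b x) (hd2int T a b y), ← hrep T hT a b x,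
        ← hrep T hT a b y] at h2
      have h4 := hbd T hT a b x
      have h5 := hbd T hT a b y
      have h6 : d2 a b u x - d2 a b u y =
        (Real.exp (-(κ + 2) * T) * Mt Q T (d2 a b u) x -
          Real.exp (-(κ + 2) * T) * Mt Q T (d2 a b u) y) +
        ((d2 a b u x - Real.exp (-(κ + 2) * T) * Mt Q T (d2 a b u) x) -
          (d2 a b u y - Real.exp (-(κ + 2) * T) * Mt Q T (d2 a b u) y)) := by ring
      rw [h6]
      refine (abs_add_le _ _).trans (add_le_add ?_ h2)
      refine (abs_sub _ _).trans ?_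
      linarith
    have h5 : |d2 a b u x - d2 a b u y| ≤ 0 + (H * (A2 + A3) * ‖a‖ * ‖b‖) * 12 * √‖x - y‖ :=
      ge_of_tendsto ((hlim (2 * (K * ‖a‖ * ‖b‖))).add_const _)
        (Filter.eventually_atTop.mpr ⟨1, fun T hT => h1 T (by linarith)⟩)
    refine h5.trans ?_
    have : 0 ≤ (A2 * Bw) * H * ‖a‖ * ‖b‖ * √‖x - y‖ := by positivity
    nlinarith

theorem row_CORE : ST_CORE := by
  intro E _ _ _ _ _ R
  exact row_CORE' R

end MMB2
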