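import Pool.Agent.Helper32.MM.DefsB2

set_option linter.unusedSectionVars false

namespace MMB2
open MeasureTheory Real Set

variable {E : Type*} [NormedAddCommGroup E] [InnerProductSpace ℝ E] [FiniteDimensional ℝ E]
  [MeasurableSpace E] [BorelSpace E]

/-- polynomial growth -/
def PG (G : E → ℝ) : Prop := ∃ (C : ℝ) (m : ℕ), ∀ x, |G x| ≤ C * (1 + ‖x‖) ^ m

theorem integrable_gauss {c : ℝ} (hc : 0 < c) : Integrable (fun z : E => Real.exp (-c * ‖z‖ ^ 2)) := by
  have h := GaussianFourier.integrable_cexp_neg_mul_sq_norm_add (V := E) (b := (c : ℂ))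
    (by simpa using hc) 0 0
  refine (h.norm).congr ?_
  filter_upwards with z
  simp only [zero_mul, add_zero, Complex.norm_exp]
  congr 1
  rw [show -(c : ℂ) * (‖z‖ : ℂ) ^ 2 = ((-c * ‖z‖ ^ 2 : ℝ) : ℂ) by push_cast; ring]
  exact Complex.ofReal_re _

theorem pow_mul_exp_bdd {c : ℝ} (hc : 0 < c) (m : ℕ) :
    ∃ B : ℝ, 0 ≤ B ∧ ∀ r : ℝ, 0 ≤ r → (1 + r) ^ m * Real.exp (-c * r ^ 2) ≤ B := by
  -- (1+r)^m ≤ B' exp (c r^2) as (1+r)^m ≤ m!/a^m exp(a(1+r)) and a(1+r) ≤ c r^2 + const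
  refine ⟨(m.factorial : ℝ) * Real.exp (1 + 1 / (4 * c)), by positivity, fun r hr => ?_⟩
  have h1 : (1 + r) ^ m ≤ (m.factorial : ℝ) * Real.exp (1 + r) := by
    have := Real.pow_div_factorial_le_exp (1 + r) (by linarith) m
    rw [div_le_iff₀ (by positivity)] at this
    linarith
  calc (1 + r) ^ m * Real.exp (-c * r ^ 2)
      ≤ ((m.factorial : ℝ) * Real.exp (1 + r)) * Real.exp (-c * r ^ 2) := by gcongr
    _ = (m.factorial : ℝ) * Real.exp (1 + r - c * r ^ 2) := by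
        rw [mul_assoc, ← Real.exp_add]; ring_nf
    _ ≤ (m.factorial : ℝ) * Real.exp (1 + 1 / (4 * c)) := by
        gcongr
        have : 0 ≤ (2 * c * r - 1) ^ 2 / (4 * c) := by positivity
        have e : (2 * c * r - 1) ^ 2 / (4 * c) = c * r ^ 2 - r + 1 / (4 * c) := by
          field_simp; ring
        linarith

theorem integrable_pow_gauss {c : ℝ} (hc : 0 < c) (m : ℕ) :
    Integrable (fun z : E => (1 + ‖z‖) ^ m * Real.exp (-c * ‖z‖ ^ 2)) := by
  obtain ⟨B, hB, hb⟩ := pow_mul_exp_bdd (half_pos hc) m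
  refine ((integrable_gauss (E := E) (half_pos hc)).const_mul B).mono' ?_ ?_
  · exact (by fun_prop : Continuous fun z : E => (1 + ‖z‖) ^ m * Real.exp (-c * ‖z‖ ^ 2)).aestronglyMeasurable
  · filter_upwards with z
    rw [Real.norm_of_nonneg (by positivity)]
    have h1 := hb ‖z‖ (norm_nonneg z)
    have e : Real.exp (-c * ‖z‖ ^ 2) = Real.exp (-(c/2) * ‖z‖ ^ 2) * Real.exp (-(c/2) * ‖z‖ ^ 2) := by
      rw [← Real.exp_add]; ring_nf
    rw [e, ← mul_assoc]
    gcongr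

theorem int_gauss_pos : 0 < ∫ w : E, Real.exp (-‖w‖ ^ 2 / 2) := by
  have h : ∀ w : E, Real.exp (-‖w‖ ^ 2 / 2) = Real.exp (-(1/2) * ‖w‖ ^ 2) := by
    intro w; ring_nf
  simp_rw [h]
  rw [GaussianFourier.integral_rexp_neg_mul_sq_norm (by norm_num)]
  positivity

theorem gk_pos (z : E) : 0 < gk z := div_pos (Real.exp_pos _) int_gauss_pos

theorem gk_eq (z : E) : gk z = (∫ w : E, Real.exp (-‖w‖ ^ 2 / 2))⁻¹ * Real.exp (-(1/2) * ‖z‖ ^ 2) := by
  unfold gk
  rw [div_eq_mul_inv, mul_comm]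
  congr 2; ring

theorem gk_cont : Continuous (gk : E → ℝ) := by
  unfold gk
  fun_prop

theorem integral_gk : ∫ z : E, gk z = 1 := by
  unfold gk
  rw [integral_div, div_self int_gauss_pos.ne']

theorem integrable_pow_gk (m : ℕ) : Integrable (fun z : E => (1 + ‖z‖) ^ m * gk z) := by
  have := (integrable_pow_gauss (E := E) (c := 1/2) (by norm_num) m).const_mul
    (∫ w : E, Real.exp (-‖w‖ ^ 2 / 2))⁻¹
  refine this.congr ?_
  filter_upwards with z
  rw [gk_eq]; ring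

theorem contDiff_gk : ContDiff ℝ ((⊤ : ℕ∞) : WithTop ℕ∞) (gk : E → ℝ) := by
  unfold gk
  refine ContDiff.div_const (Real.contDiff_exp.comp ?_) _
  exact ((contDiff_norm_sq ℝ).neg).div_const _

theorem hasFDerivAt_gk (z : E) : HasFDerivAt (gk : E → ℝ) (-(gk z) • innerSL ℝ z) z := by
  have h1 : HasFDerivAt (fun z : E => ‖z‖ ^ 2) (2 • (innerSL ℝ z)) z :=
    (hasStrictFDerivAt_norm_sq z).hasFDerivAt
  have h2 : HasFDerivAt (fun z : E => -‖z‖ ^ 2 / 2) (-(innerSL ℝ z)) z := by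
    have := h1.neg.const_mul (1/2 : ℝ)
    refine (this.congr_fderiv ?_).congr_of_eventuallyEq ?_
    · ext a; simp
    · filter_upwards with y; simp only [Pi.neg_apply]; ring
  have h3 := h2.exp.mul_const ((∫ w : E, Real.exp (-‖w‖ ^ 2 / 2))⁻¹)
  refine (h3.congr_fderiv ?_).congr_of_eventuallyEq ?_
  · ext a
    simp [gk, div_eq_mul_inv]
    ring
  · filter_upwards with y
    simp [gk, div_eq_mul_inv]

/-! ### polynomial growth calculus -/

theorem PG.nonneg_const {G : E → ℝ} {C : ℝ} {m : ℕ} (h : ∀ x, |G x| ≤ C * (1 + ‖x‖) ^ m) : 0 ≤ C := by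
  have := (abs_nonneg _).trans (h 0)
  simpa using this

theorem PG.mono {f g : E → ℝ} (hg : PG g) (h : ∀ x, |f x| ≤ |g x|) : PG f := by
  obtain ⟨C, m, hC⟩ := hg
  exact ⟨C, m, fun x => (h x).trans (hC x)⟩

theorem PG.const (c : ℝ) : PG (fun _ : E => c) := ⟨|c|, 0, fun x => by simp⟩

theorem PG.add {f g : E → ℝ} (hf : PG f) (hg : PG g) : PG (fun x => f x + g x) := by
  obtain ⟨C, m, hC⟩ := hf
  obtain ⟨D, k, hD⟩ := hg
  have hC0 := PG.nonneg_const hC
  have hD0 := PG.nonneg_const hD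
  refine ⟨C + D, m + k, fun x => ?_⟩
  have h1 : (1:ℝ) ≤ 1 + ‖x‖ := by linarith [norm_nonneg x]
  have h2 : (1 + ‖x‖) ^ m ≤ (1 + ‖x‖) ^ (m + k) := pow_le_pow_right₀ h1 (by omega)
  have h3 : (1 + ‖x‖) ^ k ≤ (1 + ‖x‖) ^ (m + k) := pow_le_pow_right₀ h1 (by omega)
  calc |f x + g x| ≤ |f x| + |g x| := abs_add_le _ _
    _ ≤ C * (1 + ‖x‖) ^ m + D * (1 + ‖x‖) ^ k := add_le_add (hC x) (hD x)
    _ ≤ C * (1 + ‖x‖) ^ (m + k) + D * (1 + ‖x‖) ^ (m + k) := by gcongr
    _ = _ := by ring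

theorem PG.mul {f g : E → ℝ} (hf : PG f) (hg : PG g) : PG (fun x => f x * g x) := by
  obtain ⟨C, m, hC⟩ := hf
  obtain ⟨D, k, hD⟩ := hg
  have hC0 := PG.nonneg_const hC
  refine ⟨C * D, m + k, fun x => ?_⟩
  rw [abs_mul]
  calc |f x| * |g x| ≤ (C * (1 + ‖x‖) ^ m) * (D * (1 + ‖x‖) ^ k) :=
        mul_le_mul (hC x) (hD x) (abs_nonneg _) (by positivity)
    _ = _ := by ring

theorem PG.neg {f : E → ℝ} (hf : PG f) : PG (fun x => - f x) :=
  hf.mono fun x => by rw [abs_neg]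

theorem PG.sub {f g : E → ℝ} (hf : PG f) (hg : PG g) : PG (fun x => f x - g x) := by
  simpa only [sub_eq_add_neg] using hf.add hg.neg

theorem PG.norm : PG (fun x : E => ‖x‖) :=
  ⟨1, 1, fun x => by rw [abs_of_nonneg (norm_nonneg x), one_mul, pow_one]; linarith⟩

theorem PG.inner_left (a : E) : PG (fun x : E => (inner ℝ a x : ℝ)) :=
  ⟨‖a‖, 1, fun x => by
    rw [pow_one]
    calc |(inner ℝ a x : ℝ)| ≤ ‖a‖ * ‖x‖ := abs_real_inner_le_norm a x
      _ ≤ ‖a‖ * (1 + ‖x‖) := by gcongr; linarith⟩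

theorem PG.clm (L : E →L[ℝ] ℝ) : PG (fun x : E => L x) :=
  ⟨‖L‖, 1, fun x => by
    rw [pow_one]
    calc |L x| ≤ ‖L‖ * ‖x‖ := L.le_opNorm x
      _ ≤ ‖L‖ * (1 + ‖x‖) := by gcongr; linarith⟩

theorem PG.comp_affine {G : E → ℝ} (hG : PG G) (y : E) (s : ℝ) (Q : E →L[ℝ] E) :
    PG (fun z => G (y + s • Q z)) := by
  obtain ⟨C, m, hC⟩ := hG
  have hC0 := PG.nonneg_const hC
  refine ⟨C * (1 + ‖y‖ + |s| * ‖Q‖) ^ m, m, fun z => ?_⟩
  calc |G (y + s • Q z)| ≤ C * (1 + ‖y + s • Q z‖) ^ m := hC _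
    _ ≤ C * ((1 + ‖y‖ + |s| * ‖Q‖) * (1 + ‖z‖)) ^ m := by
        gcongr
        have h1 : ‖y + s • Q z‖ ≤ ‖y‖ + |s| * (‖Q‖ * ‖z‖) := by
          calc ‖y + s • Q z‖ ≤ ‖y‖ + ‖s • Q z‖ := norm_add_le _ _
            _ = ‖y‖ + |s| * ‖Q z‖ := by rw [norm_smul, Real.norm_eq_abs]
            _ ≤ _ := by gcongr; exact Q.le_opNorm z
        have h2 : 0 ≤ ‖z‖ := norm_nonneg z
        have h3 : 0 ≤ ‖y‖ := norm_nonneg y
        have h4 : 0 ≤ |s| * ‖Q‖ := by positivity
        nlinarith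
    _ = _ := by rw [mul_pow]; ring

theorem PG.integrable_mul_gk {f : E → ℝ} (hf : Continuous f) (hp : PG f) :
    Integrable (fun z : E => f z * gk z) := by
  obtain ⟨C, m, hC⟩ := hp
  refine ((integrable_pow_gk (E := E) m).const_mul C).mono' (hf.mul gk_cont).aestronglyMeasurable ?_
  filter_upwards with z
  rw [norm_mul, Real.norm_eq_abs, Real.norm_of_nonneg (gk_pos z).le, ← mul_assoc]
  exact mul_le_mul_of_nonneg_right (hC z) (gk_pos z).le

theorem gk_sub_le {y z : E} (hy : ‖y‖ ≤ 1) :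
    gk (z - y) ≤ (Real.exp 1 * (∫ w : E, Real.exp (-‖w‖ ^ 2 / 2))⁻¹) * Real.exp (-(1/4) * ‖z‖ ^ 2) := by
  rw [gk_eq]
  have h1 : ‖z‖ ^ 2 ≤ 2 * ‖z - y‖ ^ 2 + 2 * ‖y‖ ^ 2 := by
    have : ‖z‖ ≤ ‖z - y‖ + ‖y‖ := by simpa using norm_add_le (z - y) y
    nlinarith [sq_nonneg (‖z - y‖ - ‖y‖), norm_nonneg z, norm_nonneg y, norm_nonneg (z - y)]
  have h2 : ‖y‖ ^ 2 ≤ 1 := by nlinarith [norm_nonneg y]
  have h3 : Real.exp (-(1/2) * ‖z - y‖ ^ 2) ≤ Real.exp 1 * Real.exp (-(1/4) * ‖z‖ ^ 2) := by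
    rw [← Real.exp_add]
    apply Real.exp_le_exp.mpr
    linarith
  have := int_gauss_pos (E := E)
  calc _ ≤ (∫ w : E, Real.exp (-‖w‖ ^ 2 / 2))⁻¹ * (Real.exp 1 * Real.exp (-(1/4) * ‖z‖ ^ 2)) := by
        gcongr
    _ = _ := by ring

/-- differentiate the translate of a Gaussian weight -/
theorem hasFDerivAt_trans {g p : E → ℝ} (hg : Continuous g) (hgp : PG g) (hp : ContDiff ℝ 1 p)
    (hpp : PG p) (hdp : PG fun z => ‖fderiv ℝ p z‖) :
    HasFDerivAt (fun y : E => ∫ z : E, g z * (p (z - y) * gk (z - y)))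
      (∫ z : E, (g z) • (-((gk z) • fderiv ℝ p z + p z • (-(gk z) • innerSL ℝ z)))) 0 := by
  obtain ⟨Cg, mg, hCg⟩ := hgp
  obtain ⟨Cp, mp, hCp⟩ := hpp
  obtain ⟨Cd, md, hCd⟩ := hdp
  have hCg0 := PG.nonneg_const hCg
  have hCp0 := PG.nonneg_const hCp
  have hCd0 := PG.nonneg_const hCd
  set I := (∫ w : E, Real.exp (-‖w‖ ^ 2 / 2))⁻¹ with hI
  have hI0 : 0 ≤ I := by rw [hI]; exact (inv_pos.mpr int_gauss_pos).le
  let F' : E → E → (E →L[ℝ] ℝ) := fun y z =>
    (g z) • (-((gk (z - y)) • fderiv ℝ p (z - y) + p (z - y) • (-(gk (z - y)) • innerSL ℝ (z - y))))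
  have hdpc : Continuous (fderiv ℝ p) := hp.continuous_fderiv (by norm_num)
  let k := md + mp + 1
  let bound : E → ℝ := fun z => (Cg * (Cd * 2 ^ md + Cp * 2 ^ (mp + 1)) * (Real.exp 1 * I)) *
    ((1 + ‖z‖) ^ (mg + k) * Real.exp (-(1/4) * ‖z‖ ^ 2))
  have key := hasFDerivAt_integral_of_dominated_of_fderiv_le (μ := (volume : Measure E))
    (F := fun (y : E) (z : E) => g z * (p (z - y) * gk (z - y))) (F' := F') (x₀ := (0 : E))
    (s := Metric.ball (0:E) 1) (bound := bound) (Metric.ball_mem_nhds 0 one_pos) ?_ ?_ ?_ ?_ ?_ ?_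
  · simpa [F'] using key
  · refine Filter.Eventually.of_forall fun y => ?_
    refine Continuous.aestronglyMeasurable ?_
    exact hg.mul ((hp.continuous.comp (continuous_id.sub continuous_const)).mul
      (gk_cont.comp (continuous_id.sub continuous_const)))
  · have : Integrable (fun z : E => (g z * p z) * gk z) :=
      PG.integrable_mul_gk (hg.mul hp.continuous) (PG.mul ⟨Cg, mg, hCg⟩ ⟨Cp, mp, hCp⟩)
    refine this.congr ?_
    filter_upwards with z
    simp [mul_assoc]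
  · refine Continuous.aestronglyMeasurable ?_
    have := gk_cont (E := E)
    have hi : Continuous fun z : E => innerSL ℝ z := (innerSL ℝ).continuous
    simp only [F', sub_zero]
    exact hg.smul (((this.smul hdpc).add (hp.continuous.smul (this.neg.smul hi))).neg)
  · filter_upwards with z y hy
    have hy1 : ‖y‖ ≤ 1 := by
      have := Metric.mem_ball.mp hy
      rw [dist_zero_right] at this
      exact this.le
    have hn : 1 + ‖z - y‖ ≤ 2 * (1 + ‖z‖) := by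
      have := norm_sub_le z y
      linarith [norm_nonneg z]
    have hz1 : (1:ℝ) ≤ 1 + ‖z‖ := by linarith [norm_nonneg z]
    have hgk := gk_sub_le (z := z) hy1
    have hgk0 := (gk_pos (z - y)).le
    have e1 : ‖F' y z‖ ≤ |g z| * ((‖fderiv ℝ p (z - y)‖ + |p (z - y)| * ‖z - y‖) * gk (z - y)) := by
      simp only [F']
      rw [norm_smul, norm_neg, Real.norm_eq_abs]
      gcongr
      calc ‖(gk (z - y)) • fderiv ℝ p (z - y) + p (z - y) • (-(gk (z - y)) • innerSL ℝ (z - y))‖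
          ≤ ‖(gk (z - y)) • fderiv ℝ p (z - y)‖ + ‖p (z - y) • (-(gk (z - y)) • innerSL ℝ (z - y))‖ :=
            norm_add_le _ _
        _ = gk (z - y) * ‖fderiv ℝ p (z - y)‖ + |p (z - y)| * (gk (z - y) * ‖z - y‖) := by
            rw [norm_smul, norm_smul, norm_smul, Real.norm_of_nonneg hgk0, Real.norm_eq_abs,
              norm_neg, Real.norm_of_nonneg hgk0, innerSL_apply_norm]
        _ = _ := by ring
    have e2 : ‖fderiv ℝ p (z - y)‖ ≤ Cd * (2 ^ md * (1 + ‖z‖) ^ k) := by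
      have := hCd (z - y)
      rw [abs_of_nonneg (norm_nonneg _)] at this
      refine this.trans ?_
      gcongr
      calc (1 + ‖z - y‖) ^ md ≤ (2 * (1 + ‖z‖)) ^ md := by gcongr
        _ = 2 ^ md * (1 + ‖z‖) ^ md := mul_pow _ _ _
        _ ≤ 2 ^ md * (1 + ‖z‖) ^ k := by
            gcongr
            omega
    have e3 : |p (z - y)| * ‖z - y‖ ≤ Cp * (2 ^ (mp + 1) * (1 + ‖z‖) ^ k) := by
      calc |p (z - y)| * ‖z - y‖ ≤ (Cp * (1 + ‖z - y‖) ^ mp) * (1 + ‖z - y‖) := by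
            gcongr
            · exact hCp _
            · linarith
        _ = Cp * (1 + ‖z - y‖) ^ (mp + 1) := by ring
        _ ≤ Cp * (2 * (1 + ‖z‖)) ^ (mp + 1) := by gcongr
        _ = Cp * (2 ^ (mp + 1) * (1 + ‖z‖) ^ (mp + 1)) := by rw [mul_pow]
        _ ≤ Cp * (2 ^ (mp + 1) * (1 + ‖z‖) ^ k) := by
            gcongr
            omega
    calc ‖F' y z‖ ≤ |g z| * ((‖fderiv ℝ p (z - y)‖ + |p (z - y)| * ‖z - y‖) * gk (z - y)) := e1
      _ ≤ (Cg * (1 + ‖z‖) ^ mg) * ((Cd * (2 ^ md * (1 + ‖z‖) ^ k) + Cp * (2 ^ (mp + 1) * (1 + ‖z‖) ^ k))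
            * ((Real.exp 1 * I) * Real.exp (-(1/4) * ‖z‖ ^ 2))) := by
          gcongr
          exact hCg z
      _ = bound z := by simp only [bound]; rw [pow_add]; ring
  · exact (integrable_pow_gauss (by norm_num) _).const_mul _
  · filter_upwards with z y hy
    have h1 : HasFDerivAt (fun y : E => z - y) (-ContinuousLinearMap.id ℝ E) y := by
      simpa using (hasFDerivAt_id y).const_sub z
    have h2 : HasFDerivAt p (fderiv ℝ p (z - y)) (z - y) :=
      (hp.differentiable (by norm_num) _).hasFDerivAt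
    have h3 := (h2.mul (hasFDerivAt_gk (z - y)))
    have h4 := (h3.comp y h1).const_mul (g z)
    refine h4.congr_fderiv ?_
    ext a
    simp [F']
    ring

/-- Gaussian integral with weight `p` -/
noncomputable def Ip (Q : E ≃L[ℝ] E) (t : ℝ) (p G : E → ℝ) (x : E) : ℝ :=
  ∫ z : E, G (Real.exp (-t) • x + sg t • Q z) * (p z * gk z)

noncomputable def p1 (a z : E) : ℝ := inner ℝ a z
noncomputable def p2 (a b z : E) : ℝ := inner ℝ a z * inner ℝ b z - inner ℝ a b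
noncomputable def p3 (a b c z : E) : ℝ :=
  inner ℝ a z * inner ℝ b z * inner ℝ c z - inner ℝ a b * inner ℝ c z
    - inner ℝ a c * inner ℝ b z - inner ℝ b c * inner ℝ a z

/-- moments -/
noncomputable def mom (E : Type*) [NormedAddCommGroup E] [InnerProductSpace ℝ E]
    [FiniteDimensional ℝ E] [MeasurableSpace E] [BorelSpace E] (m : ℕ) : ℝ :=
  ∫ z : E, (1 + ‖z‖) ^ m * gk z

theorem mom_nonneg (m : ℕ) : 0 ≤ mom E m :=
  integral_nonneg fun z => mul_nonneg (by positivity) (gk_pos z).le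

theorem integrable_Ip (Q : E ≃L[ℝ] E) (t : ℝ) {p G : E → ℝ} (hG : Continuous G) (hGp : PG G)
    (hp : Continuous p) (hpp : PG p) (x : E) :
    Integrable (fun z : E => G (Real.exp (-t) • x + sg t • Q z) * (p z * gk z)) := by
  have h1 : PG (fun z => G (Real.exp (-t) • x + sg t • (Q : E →L[ℝ] E) z)) :=
    hGp.comp_affine _ _ _
  have h2 : Continuous (fun z => G (Real.exp (-t) • x + sg t • (Q : E →L[ℝ] E) z)) := by
    fun_prop
  have := PG.integrable_mul_gk (h2.mul hp) (h1.mul hpp)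
  refine this.congr ?_
  filter_upwards with z
  simp [mul_assoc]

theorem sg_pos {t : ℝ} (ht : 0 < t) : 0 < sg t := by
  unfold sg
  apply Real.sqrt_pos.mpr
  have : Real.exp (-2 * t) < 1 := by
    rw [Real.exp_lt_one_iff]
    linarith
  linarith

theorem sg_sq {t : ℝ} (ht : 0 ≤ t) : sg t ^ 2 = 1 - Real.exp (-2 * t) := by
  unfold sg
  rw [Real.sq_sqrt]
  have : Real.exp (-2 * t) ≤ 1 := by
    rw [Real.exp_le_one_iff]
    linarith
  linarith

theorem sg_le_one (t : ℝ) : sg t ≤ 1 := by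
  unfold sg
  rw [Real.sqrt_le_left (by norm_num)]
  linarith [Real.exp_pos (-2 * t)]

/-- the basic differentiation formula (translation of the Gaussian) -/
theorem hasFDerivAt_Ip (Q : E ≃L[ℝ] E) {t : ℝ} (ht : 0 < t) {p G : E → ℝ} (hG : Continuous G)
    (hGp : PG G) (hp : ContDiff ℝ 1 p) (hpp : PG p) (hdp : PG fun z => ‖fderiv ℝ p z‖) (x : E) :
    ∃ L : E →L[ℝ] ℝ, HasFDerivAt (Ip Q t p G) L x ∧
      ∀ a, L a = Real.exp (-t) / sg t *
        Ip Q t (fun z => p z * inner ℝ (Q.symm a) z - d1 (Q.symm a) p z) G x := by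
  have hs := sg_pos ht
  set α := Real.exp (-t) with hα
  set s := sg t with hsdef
  let g : E → ℝ := fun z => G (α • x + s • Q z)
  have hg : Continuous g := by
    have : Continuous (fun z => G (α • x + s • (Q : E →L[ℝ] E) z)) := by fun_prop
    exact this
  have hgp : PG g := hGp.comp_affine _ _ (Q : E →L[ℝ] E)
  have hT := hasFDerivAt_trans hg hgp hp hpp hdp
  -- the linear change
  let B : E →L[ℝ] E := (α / s) • (Q.symm : E →L[ℝ] E)
  have hB : HasFDerivAt (fun y : E => B (y - x)) B x := by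
    have h0 : HasFDerivAt (fun y : E => y - x) (ContinuousLinearMap.id ℝ E) x :=
      (hasFDerivAt_id x).sub_const x
    have := HasFDerivAt.comp (f := fun y : E => y - x) x (B.hasFDerivAt) h0
    rw [ContinuousLinearMap.comp_id] at this
    exact this
  have hBx : B (x - x) = 0 := by simp
  have hT' : HasFDerivAt (fun y : E => ∫ z : E, g z * (p (z - y) * gk (z - y)))
      (∫ z : E, (g z) • (-((gk z) • fderiv ℝ p z + p z • (-(gk z) • innerSL ℝ z))))
      (B (x - x)) := by rw [hBx]; exact hT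
  have hcomp := hT'.comp x hB
  refine ⟨_, hcomp.congr_of_eventuallyEq ?_, ?_⟩
  · refine Filter.Eventually.of_forall fun y => ?_
    simp only [Function.comp_apply, Ip]
    rw [← integral_add_right_eq_self (μ := (volume : Measure E))
      (fun z => g z * (p (z - B (y - x)) * gk (z - B (y - x)))) (B (y - x))]
    refine integral_congr_ae ?_
    filter_upwards with z
    have e : α • x + s • Q (z + B (y - x)) = α • y + s • Q z := by
      simp only [B, _root_.smul_apply, map_add, map_smul,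
        ContinuousLinearEquiv.coe_coe, ContinuousLinearEquiv.apply_symm_apply, smul_add]
      rw [smul_smul, mul_div_cancel₀ _ hs.ne', smul_sub]
      abel
    simp only [g, add_sub_cancel_right]
    rw [e]
  · intro a
    have hint : Integrable (fun z : E =>
        (g z) • (-((gk z) • fderiv ℝ p z + p z • (-(gk z) • innerSL ℝ z)))) := by
      obtain ⟨Cg, mg, hCg⟩ := hgp
      have hdpc : Continuous (fderiv ℝ p) := hp.continuous_fderiv (by norm_num)
      have hi : Continuous fun z : E => innerSL ℝ z := (innerSL ℝ).continuous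
      have hbd : PG (fun z => |g z| * (‖fderiv ℝ p z‖ + |p z| * ‖z‖)) :=
        (PG.mono ⟨Cg, mg, hCg⟩ (fun x => by rw [abs_abs])).mul
          (hdp.add ((hpp.mono (fun x => by rw [abs_abs])).mul PG.norm))
      have hbc : Continuous (fun z => |g z| * (‖fderiv ℝ p z‖ + |p z| * ‖z‖)) := by
        have := hp.continuous
        fun_prop
      refine (PG.integrable_mul_gk hbc hbd).mono' ?_ ?_
      · have := gk_cont (E := E)
        exact (hg.smul (((this.smul hdpc).add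
          (hp.continuous.smul (this.neg.smul hi))).neg)).aestronglyMeasurable
      · filter_upwards with z
        have hgk0 := (gk_pos z).le
        rw [norm_smul, norm_neg, Real.norm_eq_abs]
        calc |g z| * ‖(gk z) • fderiv ℝ p z + p z • (-(gk z) • innerSL ℝ z)‖
            ≤ |g z| * (‖(gk z) • fderiv ℝ p z‖ + ‖p z • (-(gk z) • innerSL ℝ z)‖) := by
              gcongr; exact norm_add_le _ _
          _ = |g z| * (gk z * ‖fderiv ℝ p z‖ + |p z| * (gk z * ‖z‖)) := by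
              rw [norm_smul, norm_smul, norm_smul, Real.norm_of_nonneg hgk0, Real.norm_eq_abs,
                norm_neg, Real.norm_of_nonneg hgk0, innerSL_apply_norm]
          _ = _ := by ring
    rw [ContinuousLinearMap.comp_apply, ContinuousLinearMap.integral_apply hint]
    unfold Ip
    rw [← integral_const_mul]
    refine integral_congr_ae ?_
    filter_upwards with z
    simp only [B, _root_.smul_apply, _root_.neg_apply,
      _root_.add_apply, ContinuousLinearEquiv.coe_coe, map_smul, smul_eq_mul,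
      innerSL_apply_apply, d1, g, real_inner_comm (Q.symm a) z]
    ring

/-! ### The weights -/

theorem contDiff_p1 (a : E) : ContDiff ℝ ((⊤ : ℕ∞) : WithTop ℕ∞) (p1 a : E → ℝ) :=
  (innerSL ℝ a).contDiff
theorem contDiff_p2 (a b : E) : ContDiff ℝ ((⊤ : ℕ∞) : WithTop ℕ∞) (p2 a b : E → ℝ) :=
  ((contDiff_p1 a).mul (contDiff_p1 b)).sub contDiff_const
theorem contDiff_p3 (a b c : E) : ContDiff ℝ ((⊤ : ℕ∞) : WithTop ℕ∞) (p3 a b c : E → ℝ) :=
  (((((contDiff_p1 a).mul (contDiff_p1 b)).mul (contDiff_p1 c)).sub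
    (contDiff_const.mul (contDiff_p1 c))).sub
    (contDiff_const.mul (contDiff_p1 b))).sub (contDiff_const.mul (contDiff_p1 a))

theorem hasFDerivAt_inner (a z : E) :
    HasFDerivAt (fun z : E => (inner ℝ a z : ℝ)) (innerSL ℝ a) z :=
  (innerSL ℝ a).hasFDerivAt

theorem hasFDerivAt_p1 (a z : E) : HasFDerivAt (p1 a) (innerSL ℝ a) z :=
  hasFDerivAt_inner a z

theorem hasFDerivAt_p2 (a b z : E) :
    HasFDerivAt (p2 a b) ((inner ℝ a z : ℝ) • innerSL ℝ b + (inner ℝ b z : ℝ) • innerSL ℝ a) z :=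
  ((hasFDerivAt_inner a z).mul (hasFDerivAt_inner b z)).sub_const _

theorem abs_p1_le (a z : E) : |p1 a z| ≤ ‖a‖ * (1 + ‖z‖) ^ 1 := by
  rw [pow_one]
  calc |p1 a z| ≤ ‖a‖ * ‖z‖ := abs_real_inner_le_norm a z
    _ ≤ ‖a‖ * (1 + ‖z‖) := by gcongr; linarith

theorem abs_p2_le (a b z : E) : |p2 a b z| ≤ (‖a‖ * ‖b‖) * (1 + ‖z‖) ^ 2 := by
  have h1 := abs_real_inner_le_norm a z
  have h2 := abs_real_inner_le_norm b z
  have h3 := abs_real_inner_le_norm a b
  calc |p2 a b z| ≤ |(inner ℝ a z : ℝ) * inner ℝ b z| + |(inner ℝ a b : ℝ)| := abs_sub _ _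
    _ ≤ (‖a‖ * ‖z‖) * (‖b‖ * ‖z‖) + ‖a‖ * ‖b‖ := by
        rw [abs_mul]; gcongr
    _ ≤ (‖a‖ * ‖b‖) * (1 + ‖z‖) ^ 2 := by
        have : 0 ≤ ‖a‖ * ‖b‖ * (2 * ‖z‖) := by positivity
        nlinarith

theorem abs_p3_le (a b c z : E) : |p3 a b c z| ≤ (‖a‖ * ‖b‖ * ‖c‖) * (1 + ‖z‖) ^ 3 := by
  have h1 := abs_real_inner_le_norm a z
  have h2 := abs_real_inner_le_norm b z
  have h2' := abs_real_inner_le_norm c z
  have h3 := abs_real_inner_le_norm a b
  have h4 := abs_real_inner_le_norm a c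
  have h5 := abs_real_inner_le_norm b c
  unfold p3
  calc _ ≤ |(inner ℝ a z : ℝ) * inner ℝ b z * inner ℝ c z| + |(inner ℝ a b : ℝ) * inner ℝ c z|
        + |(inner ℝ a c : ℝ) * inner ℝ b z| + |(inner ℝ b c : ℝ) * inner ℝ a z| := by
        refine (abs_sub _ _).trans ?_
        gcongr
        refine (abs_sub _ _).trans ?_
        gcongr
        exact abs_sub _ _
    _ ≤ (‖a‖ * ‖z‖) * (‖b‖ * ‖z‖) * (‖c‖ * ‖z‖) + (‖a‖ * ‖b‖) * (‖c‖ * ‖z‖)
        + (‖a‖ * ‖c‖) * (‖b‖ * ‖z‖) + (‖b‖ * ‖c‖) * (‖a‖ * ‖z‖) := by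
        simp only [abs_mul]; gcongr
    _ = (‖a‖ * ‖b‖ * ‖c‖) * (‖z‖ ^ 3 + 3 * ‖z‖) := by ring
    _ ≤ (‖a‖ * ‖b‖ * ‖c‖) * (1 + ‖z‖) ^ 3 := by
        gcongr
        nlinarith [norm_nonneg z, sq_nonneg ‖z‖]

theorem PG.of_bound {f : E → ℝ} {c : ℝ} {m : ℕ} (h : ∀ z, |f z| ≤ c * (1 + ‖z‖) ^ m) : PG f :=
  ⟨c, m, h⟩

theorem pg_p1 (a : E) : PG (p1 a) := ⟨_, _, abs_p1_le a⟩
theorem pg_p2 (a b : E) : PG (p2 a b) := ⟨_, _, abs_p2_le a b⟩
theorem pg_p3 (a b c : E) : PG (p3 a b c) := ⟨_, _, abs_p3_le a b c⟩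

theorem pg_fderiv_one : PG fun z : E => ‖fderiv ℝ (fun _ : E => (1:ℝ)) z‖ := by
  simpa using PG.const (E := E) 0

theorem pg_fderiv_p1 (a : E) : PG fun z : E => ‖fderiv ℝ (p1 a) z‖ := by
  have : ∀ z : E, fderiv ℝ (p1 a) z = innerSL ℝ a := fun z => (hasFDerivAt_p1 a z).fderiv
  simp only [this]
  exact PG.const _

theorem pg_fderiv_p2 (a b : E) : PG fun z : E => ‖fderiv ℝ (p2 a b) z‖ := by
  have : ∀ z : E, fderiv ℝ (p2 a b) z =
    ((inner ℝ a z : ℝ) • innerSL ℝ b + (inner ℝ b z : ℝ) • innerSL ℝ a) :=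
    fun z => (hasFDerivAt_p2 a b z).fderiv
  simp only [this]
  have h : PG fun z : E => |(inner ℝ a z : ℝ)| * ‖b‖ + |(inner ℝ b z : ℝ)| * ‖a‖ :=
    (((PG.inner_left a).mono (fun x => by rw [abs_abs])).mul (PG.const _)).add
      (((PG.inner_left b).mono (fun x => by rw [abs_abs])).mul (PG.const _))
  refine h.mono fun z => ?_
  rw [abs_of_nonneg (norm_nonneg _), abs_of_nonneg (by positivity)]
  refine (norm_add_le _ _).trans ?_
  rw [norm_smul, norm_smul, innerSL_apply_norm, innerSL_apply_norm, Real.norm_eq_abs,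
    Real.norm_eq_abs]

/-! ### Derivatives of `M_t G` -/

theorem Mt_eq_Ip (Q : E ≃L[ℝ] E) (t : ℝ) (G : E → ℝ) : Mt Q t G = Ip Q t (fun _ => 1) G := by
  funext x
  simp [Mt, Ip]

theorem Ip_sub (Q : E ≃L[ℝ] E) (t : ℝ) {p q G : E → ℝ} (hG : Continuous G)
    (hGp : PG G) (hp : Continuous p) (hpp : PG p) (hq : Continuous q) (hqp : PG q) (x : E) :
    Ip Q t (fun z => p z - q z) G x = Ip Q t p G x - Ip Q t q G x := by
  unfold Ip
  rw [← integral_sub (integrable_Ip Q t hG hGp hp hpp x) (integrable_Ip Q t hG hGp hq hqp x)]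
  refine integral_congr_ae ?_
  filter_upwards with z
  ring

section
variable (Q : E ≃L[ℝ] E) {t : ℝ} (ht : 0 < t) {G : E → ℝ} (hG : Continuous G) (hGp : PG G)
include ht hG hGp

theorem hasFDerivAt_Ip' {p : E → ℝ} (hp : ContDiff ℝ 1 p) (hpp : PG p)
    (hdp : PG fun z => ‖fderiv ℝ p z‖) : Differentiable ℝ (Ip Q t p G) ∧ ∀ a x,
      d1 a (Ip Q t p G) x = Real.exp (-t) / sg t *
        Ip Q t (fun z => p z * inner ℝ (Q.symm a) z - d1 (Q.symm a) p z) G x := by
  constructor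
  · intro x
    obtain ⟨L, h, -⟩ := hasFDerivAt_Ip Q ht hG hGp hp hpp hdp x
    exact h.differentiableAt
  · intro a x
    obtain ⟨L, h, h2⟩ := hasFDerivAt_Ip Q ht hG hGp hp hpp hdp x
    unfold d1
    rw [h.fderiv]
    exact h2 a

theorem d1_Mt_fun (a : E) :
    d1 a (Mt Q t G) = fun x => Real.exp (-t) / sg t * Ip Q t (p1 (Q.symm a)) G x := by
  funext x
  rw [Mt_eq_Ip, (hasFDerivAt_Ip' Q ht hG hGp contDiff_const (PG.const 1) pg_fderiv_one).2 a x]
  congr 2
  funext z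
  simp [d1, p1]

theorem d1_Mt (a x : E) :
    d1 a (Mt Q t G) x = Real.exp (-t) / sg t * Ip Q t (p1 (Q.symm a)) G x := by
  rw [d1_Mt_fun Q ht hG hGp]

theorem d2_Mt_fun (a b : E) :
    d2 a b (Mt Q t G) = fun x =>
      (Real.exp (-t) / sg t) ^ 2 * Ip Q t (p2 (Q.symm a) (Q.symm b)) G x := by
  funext x
  unfold d2
  rw [d1_Mt_fun Q ht hG hGp]
  have h := hasFDerivAt_Ip' Q ht hG hGp ((contDiff_p1 (Q.symm a)).of_le (by norm_cast))
    (pg_p1 _) (pg_fderiv_p1 _)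
  have h2 := h.2 b x
  have : d1 b (fun x => Real.exp (-t) / sg t * Ip Q t (p1 (Q.symm a)) G x) x =
      Real.exp (-t) / sg t * d1 b (Ip Q t (p1 (Q.symm a)) G) x := by
    unfold d1
    rw [fderiv_const_mul (h.1 x)]
    rfl
  rw [this, h2, ← mul_assoc, ← sq]
  congr 2
  funext z
  simp only [d1, (hasFDerivAt_p1 (Q.symm a) z).fderiv, innerSL_apply_apply, p1, p2]

theorem d2_Mt (a b x : E) :
    d2 a b (Mt Q t G) x =
      (Real.exp (-t) / sg t) ^ 2 * Ip Q t (p2 (Q.symm a) (Q.symm b)) G x := by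
  rw [d2_Mt_fun Q ht hG hGp]

theorem differentiable_Ip_p2 (a b : E) : Differentiable ℝ (Ip Q t (p2 a b) G) :=
  (hasFDerivAt_Ip' Q ht hG hGp ((contDiff_p2 a b).of_le (by norm_cast))
    (pg_p2 _ _) (pg_fderiv_p2 _ _)).1

theorem differentiable_d2_Mt (a b : E) : Differentiable ℝ (d2 a b (Mt Q t G)) := by
  rw [d2_Mt_fun Q ht hG hGp]
  exact (differentiable_Ip_p2 Q ht hG hGp _ _).const_mul _

theorem d3_Mt (a b c x : E) :
    d1 c (d2 a b (Mt Q t G)) x =
      (Real.exp (-t) / sg t) ^ 3 * Ip Q t (p3 (Q.symm a) (Q.symm b) (Q.symm c)) G x := by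
  rw [d2_Mt_fun Q ht hG hGp]
  have h := hasFDerivAt_Ip' Q ht hG hGp
    ((contDiff_p2 (Q.symm a) (Q.symm b)).of_le (by norm_cast))
    (pg_p2 _ _) (pg_fderiv_p2 _ _)
  have h2 := h.2 c x
  have : d1 c (fun x => (Real.exp (-t) / sg t) ^ 2 * Ip Q t (p2 (Q.symm a) (Q.symm b)) G x) x =
      (Real.exp (-t) / sg t) ^ 2 * d1 c (Ip Q t (p2 (Q.symm a) (Q.symm b)) G) x := by
    unfold d1
    rw [fderiv_const_mul (h.1 x)]
    rfl
  rw [this, h2, ← mul_assoc, ← pow_succ]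
  congr 2
  funext z
  simp only [d1, (hasFDerivAt_p2 (Q.symm a) (Q.symm b) z).fderiv, innerSL_apply_apply, p2, p3,
    _root_.add_apply, _root_.smul_apply, smul_eq_mul]
  ring

theorem differentiable_Mt : Differentiable ℝ (Mt Q t G) := by
  rw [Mt_eq_Ip]
  exact (hasFDerivAt_Ip' Q ht hG hGp contDiff_const (PG.const 1) pg_fderiv_one).1

theorem contDiff_Mt : ContDiff ℝ 2 (Mt Q t G) := by
  rw [show (2 : WithTop ℕ∞) = 1 + 1 by norm_num, contDiff_succ_iff_fderiv_apply]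
  refine ⟨differentiable_Mt Q ht hG hGp, by simp, fun a => ?_⟩
  change ContDiff ℝ 1 (d1 a (Mt Q t G))
  rw [show (1 : WithTop ℕ∞) = 0 + 1 by norm_num, contDiff_succ_iff_fderiv_apply]
  have h1 : Differentiable ℝ (d1 a (Mt Q t G)) := by
    rw [d1_Mt_fun Q ht hG hGp]
    exact ((hasFDerivAt_Ip' Q ht hG hGp ((contDiff_p1 (Q.symm a)).of_le
      (by norm_cast)) (pg_p1 _) (pg_fderiv_p1 _)).1).const_mul _
  refine ⟨h1, by simp, fun b => ?_⟩
  change ContDiff ℝ 0 (d2 a b (Mt Q t G))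
  rw [contDiff_zero]
  exact (differentiable_d2_Mt Q ht hG hGp a b).continuous
end

/-! ### Bounds -/

theorem Hol.nonneg' {H : ℝ} {G : E → ℝ} (h : Hol H G) (x y : E) (hxy : x ≠ y) : 0 ≤ H := by
  have h1 := (abs_nonneg _).trans (h x y)
  have h2 : 0 < √‖x - y‖ := Real.sqrt_pos.mpr (norm_pos_iff.mpr (sub_ne_zero.mpr hxy))
  by_contra hH
  push Not at hH
  nlinarith

theorem Hol.continuous' {H : ℝ} {G : E → ℝ} (h : Hol H G) : Continuous G := by
  rw [continuous_iff_continuousAt]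
  intro x
  rw [ContinuousAt, tendsto_iff_dist_tendsto_zero]
  have h1 : Filter.Tendsto (fun y => H * √‖y - x‖) (nhds x) (nhds 0) := by
    have : Continuous fun y : E => H * √‖y - x‖ := by fun_prop
    simpa using this.tendsto x
  exact squeeze_zero (fun y => dist_nonneg) (fun y => by
    rw [Real.dist_eq]; exact h y x) h1

theorem Hol.pg {H : ℝ} {G : E → ℝ} (h : Hol H G) : PG G := by
  refine ⟨|G 0| + |H|, 1, fun x => ?_⟩
  have h1 := h x 0
  rw [sub_zero] at h1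
  have h2 : √‖x‖ ≤ 1 + ‖x‖ := by
    rw [Real.sqrt_le_left (by positivity)]
    nlinarith [norm_nonneg x]
  rw [pow_one]
  calc |G x| = |(G x - G 0) + G 0| := by ring_nf
    _ ≤ |G x - G 0| + |G 0| := abs_add_le _ _
    _ ≤ H * √‖x‖ + |G 0| := by gcongr
    _ ≤ |H| * (1 + ‖x‖) + |G 0| * (1 + ‖x‖) := by
        have h3 : H * √‖x‖ ≤ |H| * (1 + ‖x‖) :=
          mul_le_mul (le_abs_self H) h2 (Real.sqrt_nonneg _) (abs_nonneg _)
        have h4 : |G 0| ≤ |G 0| * (1 + ‖x‖) := by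
          nlinarith [abs_nonneg (G 0), norm_nonneg x]
        linarith
    _ = _ := by ring

theorem Ip_const (Q : E ≃L[ℝ] E) (t : ℝ) (p : E → ℝ) (c : ℝ) (x : E) :
    Ip Q t p (fun _ => c) x = c * ∫ z : E, p z * gk z := by
  unfold Ip
  rw [integral_const_mul]

theorem d1_const (a : E) (c : ℝ) : d1 a (fun _ : E => c) = fun _ => 0 := by
  funext x; simp [d1]

/-- the weights have mean zero -/
theorem mean_p1 (a : E) : ∫ z : E, p1 a z * gk z = 0 := by
  have h := d1_Mt (ContinuousLinearEquiv.refl ℝ E) one_pos (G := fun _ : E => (1:ℝ))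
    continuous_const (PG.const 1) a 0
  rw [Ip_const, one_mul] at h
  have h0 : d1 a (Mt (ContinuousLinearEquiv.refl ℝ E) 1 (fun _ : E => (1:ℝ))) 0 = 0 := by
    have : Mt (ContinuousLinearEquiv.refl ℝ E) 1 (fun _ : E => (1:ℝ)) = fun _ => 1 := by
      funext x
      simp [Mt, integral_gk]
    rw [this]
    simp [d1]
  rw [h0] at h
  have h1 : Real.exp (-1) / sg 1 ≠ 0 := (div_pos (Real.exp_pos _) (sg_pos one_pos)).ne'
  have := (mul_eq_zero.mp h.symm).resolve_left h1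
  simpa using this

theorem mean_p2 (a b : E) : ∫ z : E, p2 a b z * gk z = 0 := by
  have h := d2_Mt (ContinuousLinearEquiv.refl ℝ E) one_pos (G := fun _ : E => (1:ℝ))
    continuous_const (PG.const 1) a b 0
  rw [Ip_const, one_mul] at h
  have h0 : d2 a b (Mt (ContinuousLinearEquiv.refl ℝ E) 1 (fun _ : E => (1:ℝ))) 0 = 0 := by
    have : Mt (ContinuousLinearEquiv.refl ℝ E) 1 (fun _ : E => (1:ℝ)) = fun _ => 1 := by
      funext x
      simp [Mt, integral_gk]
    rw [this]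
    simp [d2, d1_const]
  rw [h0] at h
  have h1 : (Real.exp (-1) / sg 1) ^ 2 ≠ 0 := pow_ne_zero _ (div_pos (Real.exp_pos _) (sg_pos one_pos)).ne'
  have := (mul_eq_zero.mp h.symm).resolve_left h1
  simpa using this

theorem mean_p3 (a b c : E) : ∫ z : E, p3 a b c z * gk z = 0 := by
  have h := d3_Mt (ContinuousLinearEquiv.refl ℝ E) one_pos (G := fun _ : E => (1:ℝ))
    continuous_const (PG.const 1) a b c 0
  rw [Ip_const, one_mul] at h
  have h0 : d1 c (d2 a b (Mt (ContinuousLinearEquiv.refl ℝ E) 1 (fun _ : E => (1:ℝ)))) 0 = 0 := by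
    have : Mt (ContinuousLinearEquiv.refl ℝ E) 1 (fun _ : E => (1:ℝ)) = fun _ => 1 := by
      funext x
      simp [Mt, integral_gk]
    rw [this]
    simp [d2, d1_const]
  rw [h0] at h
  have h1 : (Real.exp (-1) / sg 1) ^ 3 ≠ 0 := pow_ne_zero _ (div_pos (Real.exp_pos _) (sg_pos one_pos)).ne'
  have := (mul_eq_zero.mp h.symm).resolve_left h1
  simpa using this

/-- Hoelder bound for a mean zero weight -/
theorem abs_Ip_hol_le (Q : E ≃L[ℝ] E) {R : ℝ} (hQ : ‖(Q : E →L[ℝ] E)‖ ≤ R) (t : ℝ)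
    {p G : E → ℝ} {H c : ℝ} {m : ℕ} (h : Hol H G) (hH : 0 ≤ H) (hp : Continuous p)
    (hc : ∀ z, |p z| ≤ c * (1 + ‖z‖) ^ m)
    (hm : ∫ z : E, p z * gk z = 0) (x : E) :
    |Ip Q t p G x| ≤ H * √(sg t) * (√R * c * mom E (m + 1)) := by
  have hc0 : 0 ≤ c := PG.nonneg_const hc
  have hs : 0 ≤ sg t := Real.sqrt_nonneg _
  have hR : 0 ≤ R := (norm_nonneg _).trans hQ
  have hint := integrable_Ip Q t h.continuous' h.pg hp ⟨c, m, hc⟩ x
  have hint2 : Integrable (fun z : E => G (Real.exp (-t) • x) * (p z * gk z)) :=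
    (PG.integrable_mul_gk hp ⟨c, m, hc⟩).const_mul _
  have e : Ip Q t p G x = ∫ z : E,
      (G (Real.exp (-t) • x + sg t • Q z) - G (Real.exp (-t) • x)) * (p z * gk z) := by
    have : ∀ z : E, (G (Real.exp (-t) • x + sg t • Q z) - G (Real.exp (-t) • x)) * (p z * gk z)
      = G (Real.exp (-t) • x + sg t • Q z) * (p z * gk z) - G (Real.exp (-t) • x) * (p z * gk z) :=
      fun z => by ring
    simp_rw [this]
    rw [integral_sub hint hint2, integral_const_mul, hm, mul_zero, sub_zero]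
    rfl
  rw [e]
  have hb : ∀ z : E, ‖(G (Real.exp (-t) • x + sg t • Q z) - G (Real.exp (-t) • x)) * (p z * gk z)‖
      ≤ (H * √(sg t) * (√R * c)) * ((1 + ‖z‖) ^ (m + 1) * gk z) := by
    intro z
    rw [norm_mul, norm_mul, Real.norm_eq_abs, Real.norm_eq_abs, Real.norm_of_nonneg (gk_pos z).le]
    have h1 := h (Real.exp (-t) • x + sg t • Q z) (Real.exp (-t) • x)
    have h2 : ‖Real.exp (-t) • x + sg t • Q z - Real.exp (-t) • x‖ ≤ sg t * (R * ‖z‖) := by
      rw [add_sub_cancel_left, norm_smul, Real.norm_of_nonneg hs]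
      gcongr
      exact ((Q : E →L[ℝ] E).le_opNorm z).trans (by gcongr)
    have h3 : √‖Real.exp (-t) • x + sg t • Q z - Real.exp (-t) • x‖ ≤ √(sg t) * (√R * (1 + ‖z‖)) := by
      calc _ ≤ √(sg t * (R * ‖z‖)) := Real.sqrt_le_sqrt h2
        _ = √(sg t) * (√R * √‖z‖) := by
            rw [Real.sqrt_mul hs, Real.sqrt_mul hR]
        _ ≤ _ := by
            gcongr
            rw [Real.sqrt_le_left (by positivity)]
            nlinarith [norm_nonneg z]
    calc |G (Real.exp (-t) • x + sg t • Q z) - G (Real.exp (-t) • x)| * (|p z| * gk z)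
        ≤ (H * (√(sg t) * (√R * (1 + ‖z‖)))) * ((c * (1 + ‖z‖) ^ m) * gk z) := by
          have hg0 := (gk_pos z).le
          gcongr
          · exact h1.trans (by gcongr)
          · exact hc z
      _ = _ := by ring
  calc |∫ z : E, (G (Real.exp (-t) • x + sg t • Q z) - G (Real.exp (-t) • x)) * (p z * gk z)|
      ≤ ∫ z : E, (H * √(sg t) * (√R * c)) * ((1 + ‖z‖) ^ (m + 1) * gk z) :=
        norm_integral_le_of_norm_le ((integrable_pow_gk (m + 1)).const_mul _)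
          (Filter.Eventually.of_forall hb)
    _ = _ := by
        rw [integral_const_mul]
        unfold mom
        ring

/-- sup bound without Hoelder (for `|G| ≤ K`) -/
theorem abs_Ip_le (Q : E ≃L[ℝ] E) (t : ℝ) {p G : E → ℝ} {K c : ℝ} {m : ℕ}
    (hK : ∀ x, |G x| ≤ K) (hc : ∀ z, |p z| ≤ c * (1 + ‖z‖) ^ m) (x : E) :
    |Ip Q t p G x| ≤ K * (c * mom E m) := by
  have hc0 : 0 ≤ c := PG.nonneg_const hc
  have hK0 : 0 ≤ K := (abs_nonneg _).trans (hK 0)
  calc |Ip Q t p G x| ≤ ∫ z : E, (K * c) * ((1 + ‖z‖) ^ m * gk z) := by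
        unfold Ip
        rw [← Real.norm_eq_abs]
        refine norm_integral_le_of_norm_le ((integrable_pow_gk (E := E) m).const_mul _) ?_
        filter_upwards with z
        have hg0 := (gk_pos z).le
        rw [norm_mul, norm_mul, Real.norm_eq_abs, Real.norm_eq_abs,
          Real.norm_of_nonneg (gk_pos z).le]
        calc _ ≤ K * ((c * (1 + ‖z‖) ^ m) * gk z) := by
              gcongr
              · exact hK _
              · exact hc z
          _ = _ := by ring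
    _ = _ := by
        rw [integral_const_mul]
        unfold mom
        ring

theorem Hol.nonneg_of {H : ℝ} {G : E → ℝ} (h : Hol H G) (a : E) (ha : a ≠ 0) : 0 ≤ H :=
  h.nonneg' a 0 ha

theorem norm_symm_le {Q : E ≃L[ℝ] E} {R : ℝ} (hQ' : ‖(Q.symm : E →L[ℝ] E)‖ ≤ R) (a : E) :
    ‖Q.symm a‖ ≤ R * ‖a‖ :=
  ((Q.symm : E →L[ℝ] E).le_opNorm a).trans (by gcongr)

theorem p1_zero (z : E) : p1 0 z = 0 := by simp [p1]

section bounds
variable (Q : E ≃L[ℝ] E) {R : ℝ} (hQ : ‖(Q : E →L[ℝ] E)‖ ≤ R)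
    (hQ' : ‖(Q.symm : E →L[ℝ] E)‖ ≤ R) {t : ℝ} (ht : 0 < t) {G : E → ℝ} {H : ℝ} (h : Hol H G)
include hQ hQ' ht h

theorem abs_d1_Mt_le (a x : E) : |d1 a (Mt Q t G) x| ≤
      (Real.exp (-t) / sg t) * (H * √(sg t) * (√R * R * mom E 2)) * ‖a‖ := by
  rw [d1_Mt Q ht h.continuous' h.pg]
  rcases eq_or_ne a 0 with rfl | ha
  · simp [Ip, p1]
  have hH := h.nonneg_of a ha
  have hR : 0 ≤ R := (norm_nonneg _).trans hQ
  have hk : 0 ≤ Real.exp (-t) / sg t := (div_pos (Real.exp_pos _) (sg_pos ht)).le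
  have hb := abs_Ip_hol_le Q hQ t h hH (contDiff_p1 (Q.symm a)).continuous
    (abs_p1_le (Q.symm a)) (mean_p1 _) x
  rw [abs_mul, abs_of_nonneg hk]
  have hm := mom_nonneg (E := E) 2
  calc _ ≤ (Real.exp (-t) / sg t) * (H * √(sg t) * (√R * (R * ‖a‖) * mom E 2)) := by
        gcongr
        refine hb.trans ?_
        gcongr
        exact norm_symm_le hQ' a
    _ = _ := by ring

theorem abs_d2_Mt_le (a b x : E) : |d2 a b (Mt Q t G) x| ≤
      (Real.exp (-t) / sg t) ^ 2 * (H * √(sg t) * (√R * R ^ 2 * mom E 3)) * ‖a‖ * ‖b‖ := by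
  rw [d2_Mt Q ht h.continuous' h.pg]
  rcases eq_or_ne a 0 with rfl | ha
  · simp [Ip, p2]
  have hH := h.nonneg_of a ha
  have hR : 0 ≤ R := (norm_nonneg _).trans hQ
  have hk : 0 ≤ (Real.exp (-t) / sg t) ^ 2 := by positivity
  have hb := abs_Ip_hol_le Q hQ t h hH (contDiff_p2 (Q.symm a) (Q.symm b)).continuous
    (abs_p2_le (Q.symm a) (Q.symm b)) (mean_p2 _ _) x
  rw [abs_mul, abs_of_nonneg hk]
  have hm := mom_nonneg (E := E) 3
  calc _ ≤ (Real.exp (-t) / sg t) ^ 2 * (H * √(sg t) * (√R * ((R * ‖a‖) * (R * ‖b‖)) * mom E 3)) := by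
        gcongr
        refine hb.trans ?_
        gcongr
        · exact norm_symm_le hQ' a
        · exact norm_symm_le hQ' b
    _ = _ := by ring

theorem abs_d3_Mt_le (a b c x : E) : |d1 c (d2 a b (Mt Q t G)) x| ≤
      (Real.exp (-t) / sg t) ^ 3 * (H * √(sg t) * (√R * R ^ 3 * mom E 4))
        * ‖a‖ * ‖b‖ * ‖c‖ := by
  rw [d3_Mt Q ht h.continuous' h.pg]
  rcases eq_or_ne a 0 with rfl | ha
  · simp [Ip, p3]
  have hH := h.nonneg_of a ha
  have hR : 0 ≤ R := (norm_nonneg _).trans hQ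
  have hk : 0 ≤ (Real.exp (-t) / sg t) ^ 3 := by
    have := (div_pos (Real.exp_pos (-t)) (sg_pos ht)).le
    positivity
  have hb := abs_Ip_hol_le Q hQ t h hH (contDiff_p3 (Q.symm a) (Q.symm b) (Q.symm c)).continuous
    (abs_p3_le (Q.symm a) (Q.symm b) (Q.symm c)) (mean_p3 _ _ _) x
  rw [abs_mul, abs_of_nonneg hk]
  have hm := mom_nonneg (E := E) 4
  calc _ ≤ (Real.exp (-t) / sg t) ^ 3 *
        (H * √(sg t) * (√R * ((R * ‖a‖) * (R * ‖b‖) * (R * ‖c‖)) * mom E 4)) := by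
        gcongr
        refine hb.trans ?_
        gcongr
        · exact norm_symm_le hQ' a
        · exact norm_symm_le hQ' b
        · exact norm_symm_le hQ' c
    _ = _ := by ring
end bounds

end MMB2
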