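import Pool.Agent.Helper32.MM.KernB2

set_option linter.unusedSectionVars false

namespace MMB2
open MeasureTheory Real Set

variable {E : Type*} [NormedAddCommGroup E] [InnerProductSpace ℝ E] [FiniteDimensional ℝ E]
  [MeasurableSpace E] [BorelSpace E]

theorem one_add_norm_affine_le {y z : E} {α s r : ℝ} (Q : E →L[ℝ] E) (hy : ‖y‖ ≤ r) :
    1 + ‖α • y + s • Q z‖ ≤ (1 + |α| * r + |s| * ‖Q‖) * (1 + ‖z‖) := by
  have h1 : ‖α • y + s • Q z‖ ≤ |α| * ‖y‖ + |s| * (‖Q‖ * ‖z‖) := by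
    calc ‖α • y + s • Q z‖ ≤ ‖α • y‖ + ‖s • Q z‖ := norm_add_le _ _
      _ = |α| * ‖y‖ + |s| * ‖Q z‖ := by
          rw [norm_smul, norm_smul, Real.norm_eq_abs, Real.norm_eq_abs]
      _ ≤ _ := by gcongr; exact Q.le_opNorm z
  have h2 : 0 ≤ ‖z‖ := norm_nonneg z
  have hr : 0 ≤ r := (norm_nonneg y).trans hy
  have h3 : 0 ≤ |α| * r := by positivity
  have h3' : |α| * ‖y‖ ≤ |α| * r := by gcongr
  have h4 : 0 ≤ |s| * ‖Q‖ := by positivity
  nlinarith

/-- derivative of `M_t f` for smooth `f` -/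
theorem hasFDerivAt_Mt_smooth (Q : E ≃L[ℝ] E) (t : ℝ) {f : E → ℝ} (hf : ContDiff ℝ 1 f)
    (hfp : PG f) (hdf : PG fun z => ‖fderiv ℝ f z‖) (x : E) :
    HasFDerivAt (Mt Q t f)
      (∫ z : E, (Real.exp (-t) * gk z) • fderiv ℝ f (Real.exp (-t) • x + sg t • Q z)) x := by
  obtain ⟨C, m, hC⟩ := hdf
  have hC0 := PG.nonneg_const hC
  have hdfc : Continuous (fderiv ℝ f) := hf.continuous_fderiv (by norm_num)
  set α := Real.exp (-t) with hα
  have hα0 : 0 ≤ α := (Real.exp_pos _).le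
  set s := sg t with hs
  set D := (1 + |α| * (‖x‖ + 1) + |s| * ‖(Q : E →L[ℝ] E)‖) with hD
  have hD0 : 0 ≤ D := by positivity
  let F' : E → E → (E →L[ℝ] ℝ) := fun y z => (α * gk z) • fderiv ℝ f (α • y + s • Q z)
  let bound : E → ℝ := fun z => (α * (C * D ^ m)) * ((1 + ‖z‖) ^ m * gk z)
  have haff : ∀ y : E, Continuous fun z : E => α • y + s • Q z := fun y => by fun_prop
  refine hasFDerivAt_integral_of_dominated_of_fderiv_le (μ := (volume : Measure E))
    (F := fun (y : E) (z : E) => f (α • y + s • Q z) * gk z) (F' := F') (x₀ := x)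
    (s := Metric.ball x 1) (bound := bound) (Metric.ball_mem_nhds x one_pos) ?_ ?_ ?_ ?_ ?_ ?_
  · refine Filter.Eventually.of_forall fun y => ?_
    exact ((hf.continuous.comp (haff y)).mul gk_cont).aestronglyMeasurable
  · exact PG.integrable_mul_gk (hf.continuous.comp (haff x))
      (hfp.comp_affine (α • x) s (Q : E →L[ℝ] E))
  · exact ((continuous_const.mul gk_cont).smul (hdfc.comp (haff x))).aestronglyMeasurable
  · filter_upwards with z y hy
    have hy1 : ‖y‖ ≤ ‖x‖ + 1 := by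
      have h1 := Metric.mem_ball.mp hy
      rw [dist_eq_norm] at h1
      have : ‖y‖ ≤ ‖x‖ + ‖y - x‖ := by simpa using norm_add_le x (y - x)
      linarith
    have h1 := one_add_norm_affine_le (z := z) (α := α) (s := s) (Q : E →L[ℝ] E) hy1
    have hg := (gk_pos z).le
    simp only [F']
    rw [norm_smul, Real.norm_of_nonneg (mul_nonneg hα0 hg)]
    have h2 := hC (α • y + s • Q z)
    rw [abs_of_nonneg (norm_nonneg _)] at h2
    calc α * gk z * ‖fderiv ℝ f (α • y + s • Q z)‖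
        ≤ α * gk z * (C * (D * (1 + ‖z‖)) ^ m) := by
          gcongr
          refine h2.trans ?_
          gcongr
          exact h1
      _ = bound z := by simp only [bound]; rw [mul_pow]; ring
  · exact (integrable_pow_gk m).const_mul _
  · filter_upwards with z y hy
    have h1 : HasFDerivAt (fun y : E => α • y + s • Q z) (α • ContinuousLinearMap.id ℝ E) y :=
      ((hasFDerivAt_id y).const_smul α).add_const _
    have h2 : HasFDerivAt f (fderiv ℝ f (α • y + s • Q z)) (α • y + s • Q z) :=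
      (hf.differentiable (by norm_num) _).hasFDerivAt
    have h3 := (HasFDerivAt.comp (f := fun y : E => α • y + s • Q z) y h2 h1).mul_const (gk z)
    refine h3.congr_fderiv ?_
    ext a
    simp [F']
    ring

theorem integrable_fderiv_gk (Q : E ≃L[ℝ] E) (t c : ℝ) {f : E → ℝ} (hf : ContDiff ℝ 1 f)
    (hdf : PG fun z => ‖fderiv ℝ f z‖) (x : E) :
    Integrable (fun z : E => (c * gk z) • fderiv ℝ f (Real.exp (-t) • x + sg t • Q z)) := by
  have hdfc : Continuous (fderiv ℝ f) := hf.continuous_fderiv (by norm_num)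
  have haff : ∀ y : E, Continuous fun z : E => Real.exp (-t) • y + sg t • Q z :=
    fun y => by fun_prop
  have h1 : PG fun z => ‖fderiv ℝ f (Real.exp (-t) • x + sg t • (Q : E →L[ℝ] E) z)‖ :=
    hdf.comp_affine _ _ _
  have h2 := (PG.integrable_mul_gk ((hdfc.comp (haff x)).norm) h1).const_mul |c|
  refine h2.mono' ((continuous_const.mul gk_cont).smul (hdfc.comp (haff x))).aestronglyMeasurable ?_
  filter_upwards with z
  rw [norm_smul, norm_mul, Real.norm_of_nonneg (gk_pos z).le, Real.norm_eq_abs]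
  simp only [Function.comp_apply]
  apply le_of_eq
  ring

theorem d1_Mt_smooth (Q : E ≃L[ℝ] E) (t : ℝ) {f : E → ℝ} (hf : ContDiff ℝ 1 f)
    (hfp : PG f) (hdf : PG fun z => ‖fderiv ℝ f z‖) (x a : E) :
    d1 a (Mt Q t f) x = Real.exp (-t) * Mt Q t (d1 a f) x := by
  unfold d1
  rw [(hasFDerivAt_Mt_smooth Q t hf hfp hdf x).fderiv,
    ContinuousLinearMap.integral_apply (integrable_fderiv_gk Q t _ hf hdf x)]
  unfold Mt
  rw [← integral_const_mul]
  refine integral_congr_ae ?_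
  filter_upwards with z
  simp only [_root_.smul_apply, smul_eq_mul]
  ring

/-- Stein's identity -/
theorem stein (Q : E ≃L[ℝ] E) {t : ℝ} (ht : 0 < t) {f : E → ℝ} (hf : ContDiff ℝ 1 f)
    (hfp : PG f) (hdf : PG fun z => ‖fderiv ℝ f z‖) (x a : E) :
    Ip Q t (p1 a) f x = sg t * Mt Q t (d1 (Q a) f) x := by
  have h1 := d1_Mt_smooth Q t hf hfp hdf x (Q a)
  rw [d1_Mt Q ht hf.continuous hfp, ContinuousLinearEquiv.symm_apply_apply] at h1
  have hs := sg_pos ht
  have he := Real.exp_pos (-t)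
  field_simp at h1
  exact h1

/-! ### growth of functions with bounded second derivatives -/

theorem d2_eq {u : E → ℝ} (hu : ContDiff ℝ 2 u) (a b x : E) :
    d2 a b u x = fderiv ℝ (fderiv ℝ u) x b a := by
  have h1 : Differentiable ℝ (fderiv ℝ u) :=
    (hu.fderiv_right (m := 1) (by norm_num)).differentiable (by norm_num)
  unfold d2
  change fderiv ℝ (fun y => fderiv ℝ u y a) x b = _
  rw [fderiv_clm_apply (h1 x) (differentiableAt_const a)]
  simp

theorem norm_fderiv_fderiv_le {u : E → ℝ} (hu : ContDiff ℝ 2 u) {K : ℝ}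
    (hK : ∀ x a b, |d2 a b u x| ≤ K * ‖a‖ * ‖b‖) (x : E) :
    ‖fderiv ℝ (fderiv ℝ u) x‖ ≤ |K| := by
  refine ContinuousLinearMap.opNorm_le_bound _ (abs_nonneg _) fun b => ?_
  refine ContinuousLinearMap.opNorm_le_bound _ (by positivity) fun a => ?_
  rw [← d2_eq hu, Real.norm_eq_abs]
  calc _ ≤ K * ‖a‖ * ‖b‖ := hK x a b
    _ ≤ |K| * ‖a‖ * ‖b‖ := by gcongr; exact le_abs_self K
    _ = _ := by ring

theorem norm_fderiv_sub_le {u : E → ℝ} (hu : ContDiff ℝ 2 u) {K : ℝ}
    (hK : ∀ x a b, |d2 a b u x| ≤ K * ‖a‖ * ‖b‖) (x y : E) :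
    ‖fderiv ℝ u x - fderiv ℝ u y‖ ≤ |K| * ‖x - y‖ := by
  have h1 : Differentiable ℝ (fderiv ℝ u) :=
    (hu.fderiv_right (m := 1) (by norm_num)).differentiable (by norm_num)
  exact Convex.norm_image_sub_le_of_norm_fderiv_le (𝕜 := ℝ) (s := Set.univ)
    (fun z _ => h1 z) (fun z _ => norm_fderiv_fderiv_le hu hK z) convex_univ
    (Set.mem_univ _) (Set.mem_univ _)

theorem norm_fderiv_le {u : E → ℝ} (hu : ContDiff ℝ 2 u) {K : ℝ}
    (hK : ∀ x a b, |d2 a b u x| ≤ K * ‖a‖ * ‖b‖) (x : E) :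
    ‖fderiv ℝ u x‖ ≤ ‖fderiv ℝ u 0‖ + |K| * ‖x‖ := by
  have h := norm_fderiv_sub_le hu hK x 0
  rw [sub_zero] at h
  calc ‖fderiv ℝ u x‖ = ‖(fderiv ℝ u x - fderiv ℝ u 0) + fderiv ℝ u 0‖ := by rw [sub_add_cancel]
    _ ≤ ‖fderiv ℝ u x - fderiv ℝ u 0‖ + ‖fderiv ℝ u 0‖ := norm_add_le _ _
    _ ≤ _ := by linarith

theorem pg_fderiv_of_d2 {u : E → ℝ} (hu : ContDiff ℝ 2 u) {K : ℝ}
    (hK : ∀ x a b, |d2 a b u x| ≤ K * ‖a‖ * ‖b‖) : PG fun z => ‖fderiv ℝ u z‖ := by
  refine ⟨‖fderiv ℝ u 0‖ + |K|, 1, fun x => ?_⟩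
  rw [abs_of_nonneg (norm_nonneg _), pow_one]
  refine (norm_fderiv_le hu hK x).trans ?_
  have h1 := norm_nonneg (fderiv ℝ u 0)
  have h2 := abs_nonneg K
  have h3 := norm_nonneg x
  nlinarith [mul_nonneg h1 h3]

theorem pg_of_d2 {u : E → ℝ} (hu : ContDiff ℝ 2 u) {K : ℝ}
    (hK : ∀ x a b, |d2 a b u x| ≤ K * ‖a‖ * ‖b‖) : PG u := by
  refine ⟨|u 0| + (‖fderiv ℝ u 0‖ + |K|), 2, fun x => ?_⟩
  have h1 : |u x - u 0| ≤ (‖fderiv ℝ u 0‖ + |K| * ‖x‖) * ‖x‖ := by
    have := Convex.norm_image_sub_le_of_norm_fderiv_le (𝕜 := ℝ) (f := u)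
      (s := Metric.closedBall 0 ‖x‖) (x := 0) (y := x)
      (C := ‖fderiv ℝ u 0‖ + |K| * ‖x‖)
      (fun z _ => hu.differentiable (by norm_num) z) (fun z hz => by
        refine (norm_fderiv_le hu hK z).trans ?_
        have : ‖z‖ ≤ ‖x‖ := by simpa using hz
        gcongr) (convex_closedBall _ _) (by simp) (by simp)
    simpa using this
  have h2 : |u x| ≤ |u 0| + |u x - u 0| := by
    calc |u x| = |u 0 + (u x - u 0)| := by ring_nf
      _ ≤ _ := abs_add_le _ _
  have h3 := norm_nonneg (fderiv ℝ u 0)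
  have h4 := abs_nonneg K
  have h5 := norm_nonneg x
  have h6 := abs_nonneg (u 0)
  refine h2.trans ((add_le_add le_rfl h1).trans ?_)
  nlinarith [mul_nonneg h3 h5, mul_nonneg h6 h5, mul_nonneg h4 h5, mul_nonneg (mul_nonneg h3 h5) h5,
    mul_nonneg (mul_nonneg h6 h5) h5, mul_nonneg (mul_nonneg h4 h5) h5]

theorem contDiff_d1 {u : E → ℝ} {n : ℕ} (hu : ContDiff ℝ (n + 1 : ℕ) u) (a : E) :
    ContDiff ℝ n (d1 a u) := by
  have : ContDiff ℝ n (fderiv ℝ u) := hu.fderiv_right (m := n) (by norm_cast)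
  exact this.clm_apply contDiff_const

/-! ### Time derivative -/

theorem hasDerivAt_sg {t : ℝ} (ht : 0 < t) :
    HasDerivAt sg (Real.exp (-2 * t) / sg t) t := by
  have h1 : HasDerivAt (fun t : ℝ => 1 - Real.exp (-2 * t)) (2 * Real.exp (-2 * t)) t := by
    have := (((hasDerivAt_id t).const_mul (-2 : ℝ)).exp).const_sub 1
    refine this.congr_deriv ?_
    simp; ring
  have hpos : 0 < 1 - Real.exp (-2 * t) := by
    rw [← sg_sq ht.le]; exact pow_pos (sg_pos ht) 2
  have h2 := h1.sqrt hpos.ne'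
  refine h2.congr_deriv ?_
  unfold sg
  rw [mul_div_mul_left _ _ (by norm_num)]

theorem continuous_sg : Continuous sg := by
  unfold sg; fun_prop

theorem sg_mono {s t : ℝ} (h : s ≤ t) : sg s ≤ sg t := by
  unfold sg
  apply Real.sqrt_le_sqrt
  have : Real.exp (-2 * t) ≤ Real.exp (-2 * s) := Real.exp_le_exp.mpr (by linarith)
  linarith

theorem hasDerivAt_Mt_aux (Q : E ≃L[ℝ] E) {t : ℝ} (ht : 0 < t) {u : E → ℝ}
    (hu : ContDiff ℝ 1 u) (hup : PG u) (hdu : PG fun z => ‖fderiv ℝ u z‖) (x : E) :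
    HasDerivAt (fun t => Mt Q t u x)
      (∫ z : E, (fderiv ℝ u (Real.exp (-t) • x + sg t • Q z))
        (-(Real.exp (-t)) • x + (Real.exp (-2 * t) / sg t) • Q z) * gk z) t := by
  obtain ⟨C, m, hC⟩ := hdu
  have hC0 := PG.nonneg_const hC
  have hdfc : Continuous (fderiv ℝ u) := hu.continuous_fderiv (by norm_num)
  have hs2 : 0 < sg (t / 2) := sg_pos (by linarith)
  set q := ‖(Q : E →L[ℝ] E)‖ with hq
  set D := (1 + |(1:ℝ)| * ‖x‖ + |(1:ℝ)| * q) with hD
  have hD0 : 0 ≤ D := by positivity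
  let F' : ℝ → E → ℝ := fun t z => (fderiv ℝ u (Real.exp (-t) • x + sg t • Q z))
        (-(Real.exp (-t)) • x + (Real.exp (-2 * t) / sg t) • Q z) * gk z
  let bound : E → ℝ := fun z => ((C * D ^ m) * (‖x‖ + q / sg (t / 2))) * ((1 + ‖z‖) ^ (m + 1) * gk z)
  have haff : ∀ t : ℝ, Continuous fun z : E => Real.exp (-t) • x + sg t • Q z :=
    fun t => by fun_prop
  have key := hasDerivAt_integral_of_dominated_loc_of_deriv_le (μ := (volume : Measure E))
    (F := fun (t : ℝ) (z : E) => u (Real.exp (-t) • x + sg t • Q z) * gk z) (F' := F') (x₀ := t)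
    (s := Metric.ball t (t / 2)) (bound := bound) (Metric.ball_mem_nhds t (by linarith)) ?_ ?_ ?_ ?_ ?_ ?_
  · exact key.2
  · refine Filter.Eventually.of_forall fun y => ?_
    exact ((hu.continuous.comp (haff y)).mul gk_cont).aestronglyMeasurable
  · exact PG.integrable_mul_gk (hu.continuous.comp (haff t))
      (hup.comp_affine _ (sg t) (Q : E →L[ℝ] E))
  · refine Continuous.aestronglyMeasurable ?_
    refine Continuous.mul ?_ gk_cont
    exact (hdfc.comp (haff t)).clm_apply (by fun_prop)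
  · filter_upwards with z r hr
    have hr1 : t / 2 < r := by
      have h1 := Metric.mem_ball.mp hr
      rw [Real.dist_eq, abs_lt] at h1
      linarith
    have hr0 : 0 < r := by linarith
    have ha0 : 0 < Real.exp (-r) := Real.exp_pos _
    have ha1 : Real.exp (-r) ≤ 1 := Real.exp_le_one_iff.mpr (by linarith)
    have hb1 : Real.exp (-2 * r) ≤ 1 := Real.exp_le_one_iff.mpr (by linarith)
    have hsr : sg (t / 2) ≤ sg r := sg_mono hr1.le
    have hsr0 : 0 < sg r := hs2.trans_le hsr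
    have hg := (gk_pos z).le
    simp only [F']
    rw [norm_mul, Real.norm_of_nonneg hg]
    have h1 : 1 + ‖Real.exp (-r) • x + sg r • Q z‖ ≤ D * (1 + ‖z‖) := by
      have h1 := one_add_norm_affine_le (z := z) (α := Real.exp (-r)) (s := sg r)
        (Q : E →L[ℝ] E) (le_refl ‖x‖)
      refine h1.trans ?_
      rw [hD]
      gcongr
      exact sg_le_one r
    have h2 := hC (Real.exp (-r) • x + sg r • Q z)
    rw [abs_of_nonneg (norm_nonneg _)] at h2
    have h3 : ‖-(Real.exp (-r)) • x + (Real.exp (-2 * r) / sg r) • Q z‖ ≤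
        (‖x‖ + q / sg (t / 2)) * (1 + ‖z‖) := by
      calc _ ≤ ‖-(Real.exp (-r)) • x‖ + ‖(Real.exp (-2 * r) / sg r) • Q z‖ := norm_add_le _ _
        _ ≤ 1 * ‖x‖ + (1 / sg (t / 2)) * (q * ‖z‖) := by
            rw [norm_smul, norm_smul, norm_neg, Real.norm_of_nonneg ha0.le,
              Real.norm_of_nonneg (by positivity)]
            gcongr
            exact (Q : E →L[ℝ] E).le_opNorm z
        _ ≤ (‖x‖ + q / sg (t / 2)) * (1 + ‖z‖) := by
            have h4 : 0 ≤ ‖x‖ := norm_nonneg x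
            have h5 : 0 ≤ q / sg (t / 2) := by positivity
            have h6 := norm_nonneg z
            have : (1 / sg (t / 2)) * (q * ‖z‖) = q / sg (t / 2) * ‖z‖ := by ring
            rw [this]
            nlinarith
    calc ‖(fderiv ℝ u (Real.exp (-r) • x + sg r • Q z))
          (-(Real.exp (-r)) • x + (Real.exp (-2 * r) / sg r) • Q z)‖ * gk z
        ≤ (‖fderiv ℝ u (Real.exp (-r) • x + sg r • Q z)‖ *
          ‖-(Real.exp (-r)) • x + (Real.exp (-2 * r) / sg r) • Q z‖) * gk z := by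
          gcongr
          exact ContinuousLinearMap.le_opNorm _ _
      _ ≤ ((C * (D * (1 + ‖z‖)) ^ m) * ((‖x‖ + q / sg (t / 2)) * (1 + ‖z‖))) * gk z := by
          gcongr
          refine h2.trans ?_
          gcongr
      _ = bound z := by simp only [bound]; rw [mul_pow]; ring
  · exact (integrable_pow_gk _).const_mul _
  · filter_upwards with z r hr
    have hr1 : t / 2 < r := by
      have h1 := Metric.mem_ball.mp hr
      rw [Real.dist_eq, abs_lt] at h1
      linarith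
    have hr0 : 0 < r := by linarith
    have h1 : HasDerivAt (fun r : ℝ => Real.exp (-r)) (-Real.exp (-r)) r := by
      have := (hasDerivAt_neg r).exp
      refine this.congr_deriv ?_
      ring
    have h2 : HasDerivAt (fun r : ℝ => Real.exp (-r) • x + sg r • Q z)
        (-(Real.exp (-r)) • x + (Real.exp (-2 * r) / sg r) • Q z) r :=
      (h1.smul_const x).add ((hasDerivAt_sg hr0).smul_const (Q z))
    have h3 : HasFDerivAt u (fderiv ℝ u (Real.exp (-r) • x + sg r • Q z))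
        (Real.exp (-r) • x + sg r • Q z) := (hu.differentiable (by norm_num) _).hasFDerivAt
    exact (h3.comp_hasDerivAt r h2).mul_const (gk z)

theorem sum_inner_basis (Q : E ≃L[ℝ] E) (z : E) :
    Q z = ∑ i, (inner ℝ (stdOrthonormalBasis ℝ E i) z : ℝ) • Q (stdOrthonormalBasis ℝ E i) := by
  conv_lhs => rw [← (stdOrthonormalBasis ℝ E).sum_repr' z]
  rw [map_sum]
  simp

/-- `∫ Du(y_z)[Q z] = s ∑ M_t (D²u[Qb_i,Qb_i])` -/
theorem stein_sum (Q : E ≃L[ℝ] E) {t : ℝ} (ht : 0 < t) {u : E → ℝ} {K : ℝ}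
    (hu : ContDiff ℝ 2 u) (hK : ∀ x a b, |d2 a b u x| ≤ K * ‖a‖ * ‖b‖) (x : E) :
    ∫ z : E, (fderiv ℝ u (Real.exp (-t) • x + sg t • Q z)) (Q z) * gk z =
      sg t * Mt Q t (fun y => ∑ i, d2 (Q (stdOrthonormalBasis ℝ E i))
        (Q (stdOrthonormalBasis ℝ E i)) u y) x := by
  have hdu := pg_fderiv_of_d2 hu hK
  have haff : Continuous fun z : E => Real.exp (-t) • x + sg t • Q z := by fun_prop
  have hd1 : ∀ a : E, ContDiff ℝ 1 (d1 a u) := fun a => contDiff_d1 (n := 1) (by exact_mod_cast hu) a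
  have hd1p : ∀ a : E, PG (d1 a u) := fun a => by
    refine (hdu.mul (PG.const ‖a‖)).mono fun y => ?_
    rw [abs_mul, abs_of_nonneg (norm_nonneg _), abs_of_nonneg (norm_nonneg _)]
    exact (fderiv ℝ u y).le_opNorm a
  have hd1d : ∀ a : E, PG fun z => ‖fderiv ℝ (d1 a u) z‖ := fun a => by
    refine (PG.const (E := E) (|K| * ‖a‖)).mono fun y => ?_
    rw [abs_of_nonneg (norm_nonneg _), abs_of_nonneg (by positivity)]
    refine ContinuousLinearMap.opNorm_le_bound _ (by positivity) fun b => ?_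
    calc ‖fderiv ℝ (d1 a u) y b‖ = |d2 a b u y| := rfl
      _ ≤ K * ‖a‖ * ‖b‖ := hK y a b
      _ ≤ _ := by gcongr; exact le_abs_self K
  have hd2c : ∀ a b : E, Continuous (d2 a b u) := fun a b =>
    (contDiff_d1 (n := 0) (by exact_mod_cast hd1 a) b).continuous
  have hd2p : ∀ a b : E, PG (d2 a b u) := fun a b =>
    (PG.const (K * ‖a‖ * ‖b‖)).mono fun y => (hK y a b).trans (le_abs_self _)
  have e1 : ∀ z : E, (fderiv ℝ u (Real.exp (-t) • x + sg t • Q z)) (Q z) * gk z =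
      ∑ i, d1 (Q (stdOrthonormalBasis ℝ E i)) u (Real.exp (-t) • x + sg t • Q z) *
        (p1 (stdOrthonormalBasis ℝ E i) z * gk z) := by
    intro z
    conv_lhs => rw [sum_inner_basis Q z]
    rw [map_sum, Finset.sum_mul]
    refine Finset.sum_congr rfl fun i _ => ?_
    rw [map_smul, smul_eq_mul]
    have : Q z = ∑ i, (inner ℝ (stdOrthonormalBasis ℝ E i) z : ℝ) • Q (stdOrthonormalBasis ℝ E i) :=
      sum_inner_basis Q z
    rw [← this]
    simp only [d1, p1]
    ring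
  simp_rw [e1]
  rw [integral_finsetSum _ fun i _ => integrable_Ip Q t (hd1 _).continuous (hd1p _)
    (contDiff_p1 _).continuous (pg_p1 _) x]
  have e2 : ∀ i, ∫ z : E, d1 (Q (stdOrthonormalBasis ℝ E i)) u (Real.exp (-t) • x + sg t • Q z) *
        (p1 (stdOrthonormalBasis ℝ E i) z * gk z) =
      sg t * Mt Q t (d2 (Q (stdOrthonormalBasis ℝ E i)) (Q (stdOrthonormalBasis ℝ E i)) u) x :=
    fun i => stein Q ht (hd1 _) (hd1p _) (hd1d _) x _
  simp_rw [e2]
  rw [← Finset.mul_sum]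
  congr 1
  unfold Mt
  have hi : ∀ i, Integrable (fun z : E => d2 (Q (stdOrthonormalBasis ℝ E i))
      (Q (stdOrthonormalBasis ℝ E i)) u (Real.exp (-t) • x + sg t • Q z) * gk z) := fun i =>
    PG.integrable_mul_gk ((hd2c _ _).comp haff) ((hd2p _ _).comp_affine _ _ (Q : E →L[ℝ] E))
  rw [← integral_finsetSum _ fun i _ => hi i]
  refine integral_congr_ae ?_
  filter_upwards with z
  simp [Finset.sum_mul]

/-- `d/dt M_t u = - M_t A_Q u` -/
theorem hasDerivAt_Mt (Q : E ≃L[ℝ] E) {t : ℝ} (ht : 0 < t) {u : E → ℝ} {K : ℝ}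
    (hu : ContDiff ℝ 2 u) (hK : ∀ x a b, |d2 a b u x| ≤ K * ‖a‖ * ‖b‖) (x : E) :
    HasDerivAt (fun t => Mt Q t u x) (- Mt Q t (AQ Q u) x) t := by
  have hdu := pg_fderiv_of_d2 hu hK
  have hup := pg_of_d2 hu hK
  have hu1 : ContDiff ℝ 1 u := hu.of_le (by norm_num)
  refine (hasDerivAt_Mt_aux Q ht hu1 hup hdu x).congr_deriv ?_
  have haff : Continuous fun z : E => Real.exp (-t) • x + sg t • Q z := by fun_prop
  have hdfc : Continuous (fderiv ℝ u) := hu1.continuous_fderiv (by norm_num)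
  set α := Real.exp (-t) with hα
  set s := sg t with hsd
  have hs : 0 < s := sg_pos ht
  have hss : s ^ 2 = 1 - Real.exp (-2 * t) := sg_sq ht.le
  let T : E → ℝ := fun y => ∑ i, d2 (Q (stdOrthonormalBasis ℝ E i))
        (Q (stdOrthonormalBasis ℝ E i)) u y
  have hd1 : ∀ a : E, ContDiff ℝ 1 (d1 a u) := fun a => contDiff_d1 (n := 1) (by exact_mod_cast hu) a
  have hd2c : ∀ a b : E, Continuous (d2 a b u) := fun a b =>
    (contDiff_d1 (n := 0) (by exact_mod_cast hd1 a) b).continuous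
  have hTc : Continuous T := continuous_finsetSum _ fun i _ => hd2c _ _
  have hTp : PG T := by
    refine (PG.const (∑ i, K * ‖Q (stdOrthonormalBasis ℝ E i)‖ * ‖Q (stdOrthonormalBasis ℝ E i)‖)).mono
      fun y => ?_
    refine (Finset.abs_sum_le_sum_abs _ _).trans ((Finset.sum_le_sum fun i _ => hK y _ _).trans
      (le_abs_self _))
  -- integrability
  have i1 : Integrable fun z : E => (fderiv ℝ u (α • x + s • Q z)) x * gk z := by
    refine PG.integrable_mul_gk ((hdfc.comp haff).clm_apply continuous_const) ?_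
    have h1 : PG fun z => ‖fderiv ℝ u (α • x + s • (Q : E →L[ℝ] E) z)‖ := hdu.comp_affine _ _ _
    refine (h1.mul (PG.const ‖x‖)).mono fun z => ?_
    rw [abs_mul, abs_of_nonneg (norm_nonneg _), abs_of_nonneg (norm_nonneg _)]
    exact (fderiv ℝ u _).le_opNorm x
  have i2 : Integrable fun z : E => (fderiv ℝ u (α • x + s • Q z)) (Q z) * gk z := by
    refine PG.integrable_mul_gk ((hdfc.comp haff).clm_apply (Q : E →L[ℝ] E).continuous) ?_
    have h1 : PG fun z => ‖fderiv ℝ u (α • x + s • (Q : E →L[ℝ] E) z)‖ := hdu.comp_affine _ _ _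
    refine (h1.mul ((PG.const ‖(Q : E →L[ℝ] E)‖).mul PG.norm)).mono fun z => ?_
    refine le_trans ?_ (le_abs_self _)
    refine ((Real.norm_eq_abs _).symm.le.trans ((fderiv ℝ u _).le_opNorm _)).trans ?_
    exact mul_le_mul_of_nonneg_left ((Q : E →L[ℝ] E).le_opNorm z) (norm_nonneg _)
  have i3 : Integrable fun z : E => T (α • x + s • Q z) * gk z :=
    PG.integrable_mul_gk (hTc.comp haff) (hTp.comp_affine _ _ (Q : E →L[ℝ] E))
  have st := stein_sum Q ht hu hK x
  change ∫ z : E, (fderiv ℝ u (α • x + s • Q z)) (Q z) * gk z = s * Mt Q t T x at st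
  have eL : ∫ z : E, (fderiv ℝ u (α • x + s • Q z)) (-α • x + (Real.exp (-2 * t) / s) • Q z) * gk z
      = -α * (∫ z : E, (fderiv ℝ u (α • x + s • Q z)) x * gk z) +
        (Real.exp (-2 * t) / s) * ∫ z : E, (fderiv ℝ u (α • x + s • Q z)) (Q z) * gk z := by
    rw [← integral_const_mul, ← integral_const_mul,
      ← integral_add (i1.const_mul _) (i2.const_mul _)]
    refine integral_congr_ae ?_
    filter_upwards with z
    rw [map_add, map_smul, map_smul, smul_eq_mul, smul_eq_mul]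
    ring
  have eR : Mt Q t (AQ Q u) x = -(Mt Q t T x) +
      (α * (∫ z : E, (fderiv ℝ u (α • x + s • Q z)) x * gk z) +
        s * ∫ z : E, (fderiv ℝ u (α • x + s • Q z)) (Q z) * gk z) := by
    have : Mt Q t T x = ∫ z : E, T (α • x + s • Q z) * gk z := rfl
    have i3' : Integrable fun z : E => -(T (α • x + s • Q z) * gk z) := i3.neg
    have i4 : Integrable fun z : E => α * ((fderiv ℝ u (α • x + s • Q z)) x * gk z) +
        s * ((fderiv ℝ u (α • x + s • Q z)) (Q z) * gk z) :=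
      (i1.const_mul _).add (i2.const_mul _)
    rw [this, ← integral_const_mul, ← integral_const_mul,
      ← integral_add (i1.const_mul _) (i2.const_mul _), ← integral_neg,
      ← integral_add i3' i4]
    unfold Mt AQ
    refine integral_congr_ae ?_
    filter_upwards with z
    simp only [T, d1, ← hα, ← hsd, map_add, map_smul, smul_eq_mul]
    ring
  rw [eL, eR, st]
  have : Real.exp (-2 * t) / s * (s * Mt Q t T x) = Real.exp (-2 * t) * Mt Q t T x := by
    field_simp
  rw [this]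
  have e5 : s * (s * Mt Q t T x) = s ^ 2 * Mt Q t T x := by ring
  rw [e5, hss]
  ring

/-! ### Continuity in time -/

theorem continuousOn_Ip (Q : E ≃L[ℝ] E) {p G : E → ℝ} (hG : Continuous G)
    (hGp : PG G) (hp : Continuous p) (hpp : PG p) (x : E) :
    ContinuousOn (fun t => Ip Q t p G x) (Ici 0) := by
  obtain ⟨C, m, hC⟩ := hGp
  obtain ⟨C', k, hC'⟩ := hpp
  have hC0 := PG.nonneg_const hC
  have hC0' := PG.nonneg_const hC'
  set D := (1 + |(1:ℝ)| * ‖x‖ + |(1:ℝ)| * ‖(Q : E →L[ℝ] E)‖) with hD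
  have hD0 : 0 ≤ D := by positivity
  have hsc := continuous_sg
  unfold Ip
  refine continuousOn_of_dominated (bound := fun z : E => (C * D ^ m * C') *
    ((1 + ‖z‖) ^ (m + k) * gk z)) ?_ ?_ ?_ ?_
  · intro t _
    have haff : Continuous fun z : E => Real.exp (-t) • x + sg t • Q z := by fun_prop
    exact ((hG.comp haff).mul (hp.mul gk_cont)).aestronglyMeasurable
  · intro t ht
    have ht0 : (0:ℝ) ≤ t := ht
    filter_upwards with z
    have hg := (gk_pos z).le
    rw [norm_mul, norm_mul, Real.norm_of_nonneg hg, Real.norm_eq_abs, Real.norm_eq_abs]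
    have h1 : 1 + ‖Real.exp (-t) • x + sg t • Q z‖ ≤ D * (1 + ‖z‖) := by
      have h1 := one_add_norm_affine_le (z := z) (α := Real.exp (-t)) (s := sg t)
        (Q : E →L[ℝ] E) (le_refl ‖x‖)
      refine h1.trans ?_
      rw [hD]
      gcongr
      · exact Real.exp_le_one_iff.mpr (by linarith)
      · exact Real.sqrt_nonneg _
      · exact sg_le_one t
    calc |G (Real.exp (-t) • x + sg t • Q z)| * (|p z| * gk z)
        ≤ (C * (D * (1 + ‖z‖)) ^ m) * ((C' * (1 + ‖z‖) ^ k) * gk z) := by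
          gcongr
          · refine (hC _).trans ?_
            gcongr
          · exact hC' z
      _ = _ := by rw [mul_pow, pow_add]; ring
  · exact (integrable_pow_gk _).const_mul _
  · filter_upwards with z
    refine Continuous.continuousOn ?_
    have : Continuous fun t : ℝ => Real.exp (-t) • x + sg t • Q z := by fun_prop
    exact (hG.comp this).mul continuous_const

theorem continuousOn_Mt (Q : E ≃L[ℝ] E) {G : E → ℝ} (hG : Continuous G)
    (hGp : PG G) (x : E) : ContinuousOn (fun t => Mt Q t G x) (Ici 0) := by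
  simp_rw [Mt_eq_Ip]
  exact continuousOn_Ip Q hG hGp continuous_const (PG.const 1) x

theorem Mt_zero (Q : E ≃L[ℝ] E) (G : E → ℝ) (x : E) : Mt Q 0 G x = G x := by
  simp [Mt, sg, integral_const_mul, integral_gk]

/-! ### The time weights -/

noncomputable def w2 (κ t : ℝ) : ℝ := Real.exp (-κ * t) * ((Real.exp (-t) / sg t) ^ 2 * √(sg t))
noncomputable def w3 (κ t : ℝ) : ℝ := Real.exp (-κ * t) * ((Real.exp (-t) / sg t) ^ 3 * √(sg t))

theorem sg_sq_ge {t : ℝ} (ht : 0 < t) : t * Real.exp (-t) ≤ sg t ^ 2 := by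
  rw [sg_sq ht.le]
  have h1 : t ≤ Real.sinh t := Real.self_le_sinh_iff.mpr ht.le
  have h2 : 1 - Real.exp (-2 * t) = Real.exp (-t) * (2 * Real.sinh t) := by
    rw [Real.sinh_eq]
    have e1 : Real.exp (-t) * Real.exp t = 1 := by rw [← Real.exp_add]; simp
    have e2 : Real.exp (-t) * Real.exp (-t) = Real.exp (-2 * t) := by
      rw [← Real.exp_add]; ring_nf
    rw [← e2]
    linear_combination (-1 : ℝ) * e1
  rw [h2]
  have h3 := Real.exp_pos (-t)
  nlinarith [mul_le_mul_of_nonneg_left h1 h3.le, mul_pos ht h3]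

theorem w2_nonneg (κ t : ℝ) : 0 ≤ w2 κ t := by unfold w2; positivity
theorem w3_nonneg {κ t : ℝ} : 0 ≤ w3 κ t := by
  unfold w3
  have : 0 ≤ sg t := Real.sqrt_nonneg _
  positivity

theorem sg_rpow {t : ℝ} (ht : 0 < t) (r : ℝ) : sg t ^ r = (sg t ^ 2) ^ (r / 2) := by
  have hs := sg_pos ht
  rw [← Real.rpow_natCast, ← Real.rpow_mul hs.le]
  congr 1
  push_cast
  ring

theorem w2_le {κ t : ℝ} (hκ : -1 ≤ κ) (ht : 0 < t) :
    w2 κ t ≤ t ^ (-(3:ℝ)/4) * Real.exp (-(1/4) * t) := by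
  have hs := sg_pos ht
  have e1 : (Real.exp (-t) / sg t) ^ 2 * √(sg t) = Real.exp (-2 * t) * sg t ^ (-(3:ℝ)/2) := by
    rw [Real.sqrt_eq_rpow, div_pow, ← Real.exp_nat_mul, div_mul_eq_mul_div, mul_div_assoc,
      ← Real.rpow_natCast (sg t) 2, ← Real.rpow_sub hs]
    congr 2
    · push_cast; ring
    · push_cast; norm_num
  have e2 : sg t ^ (-(3:ℝ)/2) ≤ t ^ (-(3:ℝ)/4) * Real.exp ((3/4) * t) := by
    rw [sg_rpow ht]
    have h1 := sg_sq_ge ht
    have h0 : 0 < t * Real.exp (-t) := mul_pos ht (Real.exp_pos _)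
    calc (sg t ^ 2) ^ (-(3:ℝ)/2/2) ≤ (t * Real.exp (-t)) ^ (-(3:ℝ)/2/2) :=
          Real.rpow_le_rpow_of_nonpos h0 h1 (by norm_num)
      _ = _ := by
          rw [Real.mul_rpow ht.le (Real.exp_pos _).le, ← Real.exp_mul]
          congr 2
          · norm_num
          · ring
  unfold w2
  rw [e1]
  have e3 : Real.exp (-κ * t) ≤ Real.exp t := Real.exp_le_exp.mpr (by nlinarith)
  calc Real.exp (-κ * t) * (Real.exp (-2 * t) * sg t ^ (-(3:ℝ)/2))
      ≤ Real.exp t * (Real.exp (-2 * t) * (t ^ (-(3:ℝ)/4) * Real.exp ((3/4) * t))) := by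
        gcongr
    _ = t ^ (-(3:ℝ)/4) * (Real.exp t * Real.exp (-2 * t) * Real.exp ((3/4) * t)) := by ring
    _ = _ := by
        rw [← Real.exp_add, ← Real.exp_add]
        ring_nf

theorem w3_le {κ t : ℝ} (hκ : -1 ≤ κ) (ht : 0 < t) : w3 κ t ≤ t ^ (-(5:ℝ)/4) := by
  have hs := sg_pos ht
  have e1 : (Real.exp (-t) / sg t) ^ 3 * √(sg t) = Real.exp (-3 * t) * sg t ^ (-(5:ℝ)/2) := by
    rw [Real.sqrt_eq_rpow, div_pow, ← Real.exp_nat_mul, div_mul_eq_mul_div, mul_div_assoc,
      ← Real.rpow_natCast (sg t) 3, ← Real.rpow_sub hs]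
    congr 2
    · push_cast; ring
    · push_cast; norm_num
  have e2 : sg t ^ (-(5:ℝ)/2) ≤ t ^ (-(5:ℝ)/4) * Real.exp ((5/4) * t) := by
    rw [sg_rpow ht]
    have h1 := sg_sq_ge ht
    have h0 : 0 < t * Real.exp (-t) := mul_pos ht (Real.exp_pos _)
    calc (sg t ^ 2) ^ (-(5:ℝ)/2/2) ≤ (t * Real.exp (-t)) ^ (-(5:ℝ)/2/2) :=
          Real.rpow_le_rpow_of_nonpos h0 h1 (by norm_num)
      _ = _ := by
          rw [Real.mul_rpow ht.le (Real.exp_pos _).le, ← Real.exp_mul]
          congr 2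
          · norm_num
          · ring
  unfold w3
  rw [e1]
  have e3 : Real.exp (-κ * t) ≤ Real.exp t := Real.exp_le_exp.mpr (by nlinarith)
  calc Real.exp (-κ * t) * (Real.exp (-3 * t) * sg t ^ (-(5:ℝ)/2))
      ≤ Real.exp t * (Real.exp (-3 * t) * (t ^ (-(5:ℝ)/4) * Real.exp ((5/4) * t))) := by
        gcongr
    _ = t ^ (-(5:ℝ)/4) * (Real.exp t * Real.exp (-3 * t) * Real.exp ((5/4) * t)) := by ring
    _ = t ^ (-(5:ℝ)/4) * Real.exp (-(3/4) * t) := by
        rw [← Real.exp_add, ← Real.exp_add]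
        ring_nf
    _ ≤ t ^ (-(5:ℝ)/4) * 1 := by
        gcongr
        exact Real.exp_le_one_iff.mpr (by nlinarith)
    _ = _ := mul_one _

theorem integrableOn_wt : IntegrableOn (fun t : ℝ => t ^ (-(3:ℝ)/4) * Real.exp (-(1/4) * t)) (Ioi 0) := by
  have := integrableOn_rpow_mul_exp_neg_mul_rpow (p := 1) (s := -(3:ℝ)/4) (b := 1/4)
    (by norm_num) (by norm_num) (by norm_num)
  simpa using this

theorem continuousOn_w2 (κ : ℝ) : ContinuousOn (w2 κ) (Ioi 0) := by
  unfold w2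
  have hs := continuous_sg
  refine ContinuousOn.mul (by fun_prop) (ContinuousOn.mul (ContinuousOn.pow
    (ContinuousOn.div (by fun_prop) hs.continuousOn fun t ht => (sg_pos ht).ne') 2) (by fun_prop))

theorem integrableOn_w2 {κ : ℝ} (hκ : -1 ≤ κ) : IntegrableOn (w2 κ) (Ioi 0) := by
  refine integrableOn_wt.mono' ((continuousOn_w2 κ).aestronglyMeasurable measurableSet_Ioi) ?_
  rw [ae_restrict_iff' measurableSet_Ioi]
  filter_upwards with t ht
  rw [Real.norm_of_nonneg (w2_nonneg κ t)]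
  exact w2_le hκ ht

/-- absolute constant -/
noncomputable def Bw : ℝ := ∫ t in Ioi (0:ℝ), t ^ (-(3:ℝ)/4) * Real.exp (-(1/4) * t)

theorem Bw_nonneg : 0 ≤ Bw := by
  unfold Bw
  refine setIntegral_nonneg measurableSet_Ioi fun t ht => ?_
  have : (0:ℝ) < t := ht
  positivity

theorem integral_w2_le {κ : ℝ} (hκ : -1 ≤ κ) (T : ℝ) : ∫ t in Ioc 0 T, w2 κ t ≤ Bw := by
  have h1 : ∫ t in Ioc 0 T, w2 κ t ≤ ∫ t in Ioi (0:ℝ), w2 κ t :=
    setIntegral_mono_set (integrableOn_w2 hκ)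
      (Filter.Eventually.of_forall fun t => w2_nonneg κ t)
      (Filter.Eventually.of_forall fun t (ht : t ∈ Ioc 0 T) => ht.1)
  refine h1.trans (setIntegral_mono_on (integrableOn_w2 hκ) integrableOn_wt measurableSet_Ioi
    fun t ht => w2_le hκ ht)

/-- splitting at `t = d²` -/
theorem split_le {κ : ℝ} (hκ : -1 ≤ κ) {d A T : ℝ} (hd : 0 < d) (hA : 0 ≤ A)
    {f : ℝ → ℝ} (h2 : ∀ t, 0 < t → |f t| ≤ A * (2 * w2 κ t))
    (h3 : ∀ t, 0 < t → |f t| ≤ A * (d * w3 κ t)) :
    |∫ t in Ioc 0 T, f t| ≤ A * 12 * √d := by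
  have hd2 : 0 < d ^ 2 := by positivity
  let g1 : ℝ → ℝ := fun t => (2 * A) * t ^ (-(3:ℝ)/4)
  let g2 : ℝ → ℝ := fun t => (A * d) * t ^ (-(5:ℝ)/4)
  let g : ℝ → ℝ := fun t => (Ioc 0 (d ^ 2)).indicator g1 t + (Ioi (d ^ 2)).indicator g2 t
  have i1 : IntegrableOn g1 (Ioc 0 (d ^ 2)) := by
    have := (intervalIntegral.intervalIntegrable_rpow' (a := 0) (b := d ^ 2)
      (r := -(3:ℝ)/4) (by norm_num)).const_mul (2 * A)
    rwa [intervalIntegrable_iff_integrableOn_Ioc_of_le hd2.le] at this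
  have i2 : IntegrableOn g2 (Ioi (d ^ 2)) :=
    (integrableOn_Ioi_rpow_of_lt (by norm_num) hd2).const_mul _
  have ig : Integrable g := (i1.integrable_indicator measurableSet_Ioc).add
    (i2.integrable_indicator measurableSet_Ioi)
  have hg0 : ∀ t, 0 ≤ g t := by
    intro t
    refine add_nonneg (indicator_nonneg (fun s hs => ?_) t) (indicator_nonneg (fun s hs => ?_) t)
    · have : 0 < s := hs.1
      simp only [g1]; positivity
    · have : 0 < s := hd2.trans hs
      simp only [g2]; positivity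
  have hfg : ∀ t, 0 < t → |f t| ≤ g t := by
    intro t ht
    rcases le_or_gt t (d ^ 2) with h | h
    · have e1 : g t = g1 t := by
        simp only [g]
        rw [indicator_of_mem (show t ∈ Ioc 0 (d ^ 2) from ⟨ht, h⟩),
          indicator_of_notMem (show t ∉ Ioi (d ^ 2) from not_lt.mpr h), add_zero]
      rw [e1]
      refine (h2 t ht).trans ?_
      have := w2_le hκ ht
      have e2 : t ^ (-(3:ℝ)/4) * Real.exp (-(1/4) * t) ≤ t ^ (-(3:ℝ)/4) := by
        have h5 : Real.exp (-(1/4) * t) ≤ 1 := Real.exp_le_one_iff.mpr (by nlinarith)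
        have h6 : 0 ≤ t ^ (-(3:ℝ)/4) := by positivity
        nlinarith
      calc A * (2 * w2 κ t) ≤ A * (2 * t ^ (-(3:ℝ)/4)) := by gcongr; exact this.trans e2
        _ = g1 t := by simp only [g1]; ring
    · have e1 : g t = g2 t := by
        simp only [g]
        rw [indicator_of_notMem (show t ∉ Ioc 0 (d ^ 2) from fun hh => absurd hh.2 (not_le.mpr h)),
          indicator_of_mem (show t ∈ Ioi (d ^ 2) from h), zero_add]
      rw [e1]
      refine (h3 t ht).trans ?_
      calc A * (d * w3 κ t) ≤ A * (d * t ^ (-(5:ℝ)/4)) := by gcongr; exact w3_le hκ ht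
        _ = g2 t := by simp only [g2]; ring
  have hint : ∫ t, g t = A * 12 * √d := by
    simp only [g]
    rw [integral_add (i1.integrable_indicator measurableSet_Ioc)
      (i2.integrable_indicator measurableSet_Ioi), integral_indicator measurableSet_Ioc,
      integral_indicator measurableSet_Ioi]
    simp only [g1, g2]
    rw [integral_const_mul, integral_const_mul, integral_Ioi_rpow_of_lt (by norm_num) hd2,
      ← intervalIntegral.integral_of_le hd2.le, integral_rpow (Or.inl (by norm_num))]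
    have e1 : (-(3:ℝ)/4 + 1) = 1/4 := by norm_num
    have e2 : (-(5:ℝ)/4 + 1) = -(1/4) := by norm_num
    rw [e1, e2, Real.zero_rpow (by norm_num)]
    have e3 : (d ^ 2) ^ (1/4 : ℝ) = √d := by
      rw [← Real.rpow_natCast, ← Real.rpow_mul hd.le, Real.sqrt_eq_rpow]
      norm_num
    have e4 : d * (d ^ 2) ^ (-(1/4) : ℝ) = √d := by
      rw [Real.rpow_neg hd2.le, e3]
      rw [← div_eq_mul_inv, Real.div_sqrt]
    rw [e3]
    calc 2 * A * ((√d - 0) / (1 / 4)) + A * d * (-(d ^ 2) ^ (-(1/4) : ℝ) / -(1 / 4))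
        = 8 * A * √d + 4 * A * (d * (d ^ 2) ^ (-(1/4) : ℝ)) := by ring
      _ = _ := by rw [e4]; ring
  calc |∫ t in Ioc 0 T, f t| ≤ ∫ t in Ioc 0 T, g t := by
        rw [← Real.norm_eq_abs]
        refine norm_integral_le_of_norm_le ig.integrableOn ?_
        rw [ae_restrict_iff' measurableSet_Ioc]
        filter_upwards with t ht
        exact hfg t ht.1
    _ ≤ ∫ t, g t := setIntegral_le_integral ig (Filter.Eventually.of_forall hg0)
    _ = _ := hint

end MMB2
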